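import Pool.Agent.Work.MP_3d425c_gt.Cw.Skel
import Pool.Agent.Work.MP_3d425c_gt.Fr.Max

/-! The cell cut out by a choice of sides of a family of walls. -/

namespace Pool.Agent.Work.MP_3d425c_gt.Cw
open Set MulAction Pool.Agent.Work.MP_3d425c_gt.Md Pool.Agent.Work.MP_3d425c_gt.Bg
  Pool.Agent.Work.MP_3d425c_gt.Bq Pool.Agent.Work.MP_3d425c_gt.Jw
open scoped Pointwise

variable {G X0 X1 X2 X3 : Type} [Group G] [MulAction G X0] [MulAction G X1] [MulAction G X2]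
  [MulAction G X3] {T : Tri G X0 X1 X2 X3}

theorem cl_orb {X Y : Type} [MulAction G X] [MulAction G Y] {H : Subgroup G} {D : Set X}
    (hD : SmP H D) {R : X → Y → Prop} (inv : ∀ g ∈ H, ∀ x y, R x y → R (g • x) (g • y))
    (fin : ∀ x, {y | R x y}.Finite) (y : Y) : SmP (H ⊓ stabilizer G y) {x | x ∈ D ∧ R x y} := by
  have c : ∀ y' : Y, ∃ γ ∈ H, (∃ g ∈ H, g • y' = y) → γ • y' = y := fun y' => by
    by_cases h : ∃ g ∈ H, g • y' = y
    · exact ⟨h.choose, h.choose_spec.1, fun _ => h.choose_spec.2⟩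
    · exact ⟨1, one_mem _, fun k => (h k).elim⟩
  choose γ mγ hγ using c
  obtain ⟨K, hK, k⟩ := hD
  refine ⟨⋃ o ∈ K, (fun y' => γ y' • o) '' {y' | R o y'}, hK.biUnion fun o _ => (fin _).image _,
    fun x hx => ?_⟩
  obtain ⟨o, ho, h, mh, rfl⟩ := k x hx.1
  have r : R o (h⁻¹ • y) := by simpa only [inv_smul_smul] using inv h⁻¹ (inv_mem mh) _ _ hx.2
  have e := hγ (h⁻¹ • y) ⟨h, mh, smul_inv_smul _ _⟩
  refine ⟨_, mem_biUnion ho ⟨_, r, rfl⟩, h * (γ (h⁻¹ • y))⁻¹,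
    ⟨H.mul_mem mh (H.inv_mem (mγ _)), ?_⟩, ?_⟩
  · show (h * (γ (h⁻¹ • y))⁻¹) • y = y
    rw [mul_smul, inv_smul_eq_iff.2 e.symm, smul_inv_smul]
  · rw [mul_smul, inv_smul_smul]

theorem cl_loc {X E : Type} [MulAction G X] [MulAction G E] {L : Set E}
    (hL : SmP (⊤ : Subgroup G) L) (fr : ∀ (g : G) (x : X), g • x = x → g = 1) {R : X → E → Prop}
    (inv : ∀ (g : G) x y, R x y → R (g • x) (g • y))
    (fin : ∀ e ∈ L, SmP (stabilizer G e) {x | R x e}) (x : X) : {e | e ∈ L ∧ R x e}.Finite := by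
  obtain ⟨K, hK, k⟩ := hL
  refine (hK.biUnion (t := fun o => {e | e ∈ L ∧ R x e ∧ ∃ g : G, e = g • o})
    fun o _ => ?_).subset fun e he => ?_
  · rcases eq_empty_or_nonempty {e | e ∈ L ∧ R x e ∧ ∃ g : G, e = g • o} with
      h | ⟨e0, h0, -, g0, q0⟩
    · rw [h]
      exact finite_empty
    obtain ⟨M, hM, m⟩ := fin e0 h0
    refine (hM.biUnion (t := fun c => {e | ∃ g : G, g • c = x ∧ e = g • e0}) fun c _ =>
      Set.Subsingleton.finite ?_).subset ?_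
    · rintro _ ⟨g, a, rfl⟩ _ ⟨g', a', rfl⟩
      rw [inv_mul_eq_one.1 (fr (g⁻¹ * g') c (by rw [mul_smul, a', ← a, inv_smul_smul]))]
    · rintro _ ⟨-, r, g, rfl⟩
      have a : g • o = (g * g0⁻¹) • e0 := by rw [q0, mul_smul, inv_smul_smul]
      rw [a] at r ⊢
      obtain ⟨c, hc, p, hp, b⟩ := m ((g * g0⁻¹)⁻¹ • x)
        (show R _ _ by simpa only [inv_smul_smul] using inv (g * g0⁻¹)⁻¹ _ _ r)
      refine mem_biUnion hc ⟨g * g0⁻¹ * p, ?_, ?_⟩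
      · rw [mul_smul, ← b, smul_inv_smul]
      · rw [mul_smul _ p, mem_stabilizer_iff.1 hp]
  · obtain ⟨o, ho, g, -, q⟩ := k e he.1
    exact mem_biUnion ho ⟨he.1, he.2, g, q⟩

theorem cl_union {X E : Type} [MulAction G X] [MulAction G E] {H : Subgroup G} {L : Set E}
    (hL : SmP H L) {R : X → E → Prop} (inv : ∀ g ∈ H, ∀ x y, R x y → R (g • x) (g • y))
    (hH : ∀ g ∈ H, ∀ e ∈ L, g • e ∈ L) (fin : ∀ e ∈ L, SmP H {x | R x e}) :
    SmP H {x | ∃ e ∈ L, R x e} := by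
  obtain ⟨K, hK, k⟩ := hL
  choose! M hM m using fin
  refine ⟨⋃ o ∈ K ∩ L, M o, (hK.inter_of_left L).biUnion fun o ho => hM o ho.2, ?_⟩
  rintro x ⟨e, he, r⟩
  obtain ⟨o, ho, g, mg, rfl⟩ := k e he
  have oL : o ∈ L := by simpa only [inv_smul_smul] using hH g⁻¹ (inv_mem mg) _ he
  obtain ⟨c, hc, p, hp, b⟩ := m o oL (g⁻¹ • x)
    (show R _ _ by simpa only [inv_smul_smul] using inv g⁻¹ (inv_mem mg) _ _ r)
  exact ⟨c, mem_biUnion (x := o) ⟨ho, oL⟩ hc, g * p, mul_mem mg hp,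
    by rw [mul_smul, ← b, smul_inv_smul]⟩

/-- the orbit of a lattice is not finite modulo a cyclic group -/
theorem cl_thick {X : Type} [MulAction G X] (fr : ∀ (g : G) (x : X), g • x = x → g = 1) {a b : G}
    (z : Z2 a b) {A : Set X} {x : X} (ha : ∀ n : ℕ, a ^ n • x ∈ A) (hb : ∀ n : ℕ, b ^ n • x ∈ A)
    (h : G) : ¬ Sm h A := by
  rintro ⟨K, hK, k⟩
  have one : ∀ c : G, (∀ n : ℕ, c ^ n • x ∈ A) → ∃ m p : ℤ, m ≠ 0 ∧ c ^ m = h ^ p := fun c hc => by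
    choose f hf n e using fun n => k _ (hc n)
    obtain ⟨i, j, ne, q⟩ := hK.exists_lt_map_eq_of_forall_mem hf
    have u : (c ^ i)⁻¹ * (h ^ n i * (h ^ n j)⁻¹) * c ^ j = 1 := fr _ x (by
      rw [mul_smul, mul_smul, mul_smul, e j, inv_smul_smul, ← q, ← e i, inv_smul_smul])
    refine ⟨(i : ℤ) - j, n i - n j, by omega, ?_⟩
    rw [zpow_sub, zpow_sub, zpow_natCast, zpow_natCast, mul_inv_eq_iff_eq_mul,
      ← inv_mul_eq_one.1 ((mul_assoc _ _ _).symm.trans u)]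
  obtain ⟨m, p, m0, e1⟩ := one a ha
  obtain ⟨n, q, n0, e2⟩ := one b hb
  have := z.2 (m * q) (-(n * p)) (by
    rw [zpow_neg, zpow_mul, zpow_mul, e1, e2, ← zpow_mul, ← zpow_mul, mul_comm, mul_inv_cancel])
  have p0 : p = 0 := (mul_eq_zero.1 (neg_eq_zero.1 this.2)).resolve_left n0
  exact m0 (z.2 m 0 (by rw [e1, p0, zpow_zero, zpow_zero, one_mul])).1

theorem Can.thick (hM : Mfd T) {A : Set X0} (k : Can T A) (h : G) : ¬ Sm h A := by
  obtain ⟨x, hx⟩ : A.Nonempty := nonempty_iff_ne_empty.2 fun e => k.big hM (e ▸ SmP.empty)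
  obtain ⟨a, b, z, w, -⟩ := k
  refine cl_thick T.free z (x := x) (fun n => ?_) (fun n => ?_) h
  · induction n with
    | zero => rwa [pow_zero, one_smul]
    | succ n ih => rwa [pow_succ', mul_smul, w.ia]
  · induction n with
    | zero => rwa [pow_zero, one_smul]
    | succ n ih => rwa [pow_succ', mul_smul, w.ib]

/-- a choice of one side of every wall of `L` -/
def Ori (T : Tri G X0 X1 X2 X3) (L σ : Set (Set X0)) : Prop :=
  σ ⊆ L ∧ ∀ A ∈ L, (A ∈ σ ↔ st T A ∉ σ)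

/-- the coboundary of a cell is finite modulo the group of the cell -/
theorem cell_cut (S : Std T) {L σ : Set (Set X0)} {H : Subgroup G} (hL : ∀ A ∈ L, Can T A)
    (hH : ∀ g ∈ H, ∀ A ∈ L, g • A ∈ L) (ho : SmP H L)
    (hc : ∀ A ∈ L, SmP H (cut T A)) (hσ : Ori T L σ) :
    SmP (H ⊓ stabilizer G σ) (cut T (⋃₀ σ)) := by
  have ci : ∀ (g : G) ε (A : Set X0), ε ∈ cut T A → g • ε ∈ cut T (g • A) :=
    fun g ε A h => (un_cut g A ε).2 h
  have gap : ∀ y : X0, {A | A ∈ L ∧ y ∉ A ∧ y ∉ st T A}.Finite := fun y => by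
    refine (cl_loc (R := fun y A => Can T A ∧ y ∉ A ∧ y ∉ st T A) (ho.le le_top) T.free
      (fun g x A h => ⟨h.1.smul g, fun k => h.2.1 (smul_mem_smul_set_iff.1 k), fun k => h.2.2 ?_⟩)
      (fun A hA => SmP.mono ((hL A hA).st_near S) fun x hx k => hx.2.2 (k.2 hx.2.1)) y).subset
      fun A hA => ⟨hA.1, hL A hA.1, hA.2⟩
    rwa [h.1.st_smul S, smul_mem_smul_set_iff] at k
  have fin : ∀ y : X0, {τ | Ori T L τ ∧ y ∉ ⋃₀ τ}.Finite := fun y => by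
    refine Set.Finite.of_injOn (f := fun τ => τ ∩ {A | A ∈ L ∧ y ∉ A ∧ y ∉ st T A})
      (fun τ _ => inter_subset_right) ?_ (gap y).finite_subsets
    have key : ∀ τ τ', Ori T L τ ∧ y ∉ ⋃₀ τ → Ori T L τ' ∧ y ∉ ⋃₀ τ' →
        τ ∩ {A | A ∈ L ∧ y ∉ A ∧ y ∉ st T A} = τ' ∩ {A | A ∈ L ∧ y ∉ A ∧ y ∉ st T A} → τ ⊆ τ' :=
      fun τ τ' a b e A hA => by
        have l := a.1.1 hA
        by_cases c : y ∈ st T A
        · exact (b.1.2 A l).2 fun d => b.2 ⟨_, d, c⟩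
        · exact (e.subset ⟨hA, l, fun d => a.2 ⟨A, hA, d⟩, c⟩).1
    exact fun τ a τ' b e => (key τ τ' a b e).antisymm (key τ' τ b a e.symm)
  have oi : ∀ g ∈ H, ∀ τ, Ori T L τ → Ori T L (g • τ) := fun g hg τ h => by
    refine ⟨?_, fun A hA => ?_⟩
    · rintro _ ⟨A, hA, rfl⟩
      exact hH g hg A (h.1 hA)
    · have l := hH g⁻¹ (inv_mem hg) A hA
      rw [mem_smul_set_iff_inv_smul_mem, mem_smul_set_iff_inv_smul_mem, h.2 _ l,
        (hL A hA).st_smul S]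
  have ui : ∀ (g : G) (y : X0) (τ : Set (Set X0)), y ∉ ⋃₀ τ → g • y ∉ ⋃₀ (g • τ) := by
    rintro g y τ h ⟨_, ⟨A, hA, rfl⟩, k⟩
    exact h ⟨A, hA, smul_mem_smul_set_iff.1 k⟩
  refine (cl_orb (cl_union ho (R := fun ε A => ε ∈ cut T A) (fun g _ => ci g) hH hc)
    (R := fun ε τ => Ori T L τ ∧ (T.d1 ε 0 ∉ ⋃₀ τ ∨ T.d1 ε 1 ∉ ⋃₀ τ))
    (fun g hg ε τ h => ⟨oi g hg τ h.1, ?_⟩)
    (fun ε => ((fin (T.d1 ε 0)).union (fin (T.d1 ε 1))).subset fun τ h =>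
      h.2.imp (fun k => ⟨h.1, k⟩) fun k => ⟨h.1, k⟩) σ).mono fun ε h => ?_
  · rw [T.e1, T.e1]
    exact h.2.imp (ui g _ τ) (ui g _ τ)
  · have h : ¬ (T.d1 ε 0 ∈ ⋃₀ σ ↔ T.d1 ε 1 ∈ ⋃₀ σ) := h
    by_cases a : T.d1 ε 0 ∈ ⋃₀ σ
    · have b : T.d1 ε 1 ∉ ⋃₀ σ := fun b => h (iff_of_true a b)
      obtain ⟨A, hA, c⟩ := a
      exact ⟨⟨A, hσ.1 hA, fun k => b ⟨A, hA, k.1 c⟩⟩, hσ, .inr b⟩
    · obtain ⟨A, hA, c⟩ : T.d1 ε 1 ∈ ⋃₀ σ := not_not.1 fun b => h (iff_of_false a b)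
      exact ⟨⟨A, hσ.1 hA, fun k => a ⟨A, hA, k.2 c⟩⟩, hσ, .inl a⟩

/-- the group of a cell that is not finite modulo `h` has a new element that commutes with `h` -/
theorem cell_elt (S : Std T) {L σ : Set (Set X0)} {H : Subgroup G} (hL : ∀ A ∈ L, Can T A)
    (hH : ∀ g ∈ H, ∀ A ∈ L, g • A ∈ L) (ho : SmP H L) (hc : ∀ A ∈ L, SmP H (cut T A))
    (hσ : Ori T L σ) (ne : σ.Nonempty) {h : G} (h1 : h ≠ 1) (hf : ∀ A ∈ L, h • A = A)
    (nm : ∀ g ∈ H, g * h * g⁻¹ = h ∨ g * h * g⁻¹ = h⁻¹) (big : ¬ Sm h (⋃₀ σ)ᶜ) :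
    ∃ s ∈ H, s • σ = σ ∧ Commute h s ∧ s ∉ Subgroup.zpowers h := by
  by_contra n
  have n' : ∀ s ∈ H, s • σ = σ → s * h * s⁻¹ = h → s ∈ Subgroup.zpowers h := fun s a b c =>
    not_not.1 fun d => n ⟨s, a, b, (mul_inv_eq_iff_eq_mul.1 c).symm, d⟩
  have sm : Sm h (cut T (⋃₀ σ)) := by
    obtain ⟨K, hK, k⟩ := cell_cut S hL hH ho hc hσ
    rw [← smP_zpowers]
    by_cases r : ∃ r ∈ H, r • σ = σ ∧ r * h * r⁻¹ = h⁻¹
    · obtain ⟨r, r1, r2, r3⟩ := r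
      refine ⟨K ∪ (fun x => r • x) '' K, hK.union (hK.image _), fun x hx => ?_⟩
      obtain ⟨c, hc, p, hp, rfl⟩ := k x hx
      have p2 : p • σ = σ := hp.2
      rcases nm p hp.1 with e | e
      · exact ⟨c, .inl hc, p, n' p hp.1 p2 e, rfl⟩
      · refine ⟨r • c, .inr ⟨c, hc, rfl⟩, p * r⁻¹, n' _ (H.mul_mem hp.1 (H.inv_mem r1)) ?_ ?_,
          by rw [mul_smul, inv_smul_smul]⟩
        · rw [mul_smul, inv_smul_eq_iff.2 r2.symm, p2]
        · have a : r⁻¹ * h * r = h⁻¹ := by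
            have : h = r * h⁻¹ * r⁻¹ := (inv_inv h).symm.trans ((congrArg _ r3.symm).trans (by group))
            calc r⁻¹ * h * r = r⁻¹ * (r * h⁻¹ * r⁻¹) * r := by rw [← this]
              _ = h⁻¹ := by group
          calc p * r⁻¹ * h * (p * r⁻¹)⁻¹ = p * (r⁻¹ * h * r) * p⁻¹ := by group
            _ = (p * h * p⁻¹)⁻¹ := by rw [a]; group
            _ = h := by rw [e, inv_inv]
    · refine ⟨K, hK, fun x hx => ?_⟩
      obtain ⟨c, hc, p, hp, rfl⟩ := k x hx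
      exact ⟨c, hc, p, n' p hp.1 hp.2 ((nm p hp.1).resolve_right fun e => r ⟨p, hp.1, hp.2, e⟩),
        rfl⟩
  have := one_end S.mfd (a := h) (fun m k => by
      by_contra hm
      exact S.tf h h1 (isOfFinOrder_iff_zpow_eq_one.2 ⟨m, hm, k⟩)) (A := ⋃₀ σ)
    (fun x => exists_congr fun A => and_congr_right fun hA => by
      conv_lhs => rw [← hf A (hσ.1 hA), smul_mem_smul_set_iff]) sm
  obtain ⟨A, hA⟩ := ne
  exact (hL A (hσ.1 hA)).thick S.mfd h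
    ((this.resolve_right big).imp fun _ k => ⟨k.1, fun x hx => k.2 x ⟨A, hA, hx⟩⟩)

/-- an orbit of a lattice of one wall on one side of another wall makes the walls nested -/
def OneSide (T : Tri G X0 X1 X2 X3) : Prop := ∀ (A B : Set X0) (a b : G) (x : X0), Can T A →
  Can T B → Z2 a b → a • A = A → b • A = A →
  ((∀ q ∈ pp a b, q • x ∈ B) ∨ ∀ q ∈ pp a b, q • x ∉ B) → Nst T A B

/-- an element of the group of a nonempty cell outside the common group moves every wall -/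
theorem cell_move (S : Std T) (x0 : OneSide T) {L σ : Set (Set X0)} (hL : ∀ A ∈ L, Can T A)
    (hs : ∀ A ∈ L, st T A ∈ L) (cr : ∀ A ∈ L, ∃ B ∈ L, ¬ Nst T A B) (hσ : Ori T L σ) {x : X0}
    (hx : x ∉ ⋃₀ σ) {h s : G} (h1 : h ≠ 1) (hf : ∀ A ∈ L, h • A = A)
    (rt : ∀ A ∈ L, ∀ (s : G) (k : ℤ), s • A = A → k ≠ 0 → s ^ k ∈ Subgroup.zpowers h →
      s ∈ Subgroup.zpowers h)
    (sσ : s • σ = σ) (cm : Commute h s) (ns : s ∉ Subgroup.zpowers h) {A : Set X0} (hA : A ∈ L) :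
    s • A ≠ A := by
  intro e
  have z : Z2 h s := by
    refine ⟨cm, fun m n k => ?_⟩
    have n0 : n = 0 := by
      by_contra n0
      exact ns (rt A hA s n e n0 ⟨-m, by
        show h ^ (-m) = s ^ n
        rw [zpow_neg, inv_eq_iff_mul_eq_one, k]⟩)
    rw [n0, zpow_zero, mul_one] at k
    refine ⟨?_, n0⟩
    by_contra hm
    exact S.tf h h1 (isOfFinOrder_iff_zpow_eq_one.2 ⟨m, hm, k⟩)
  have inv : ∀ q ∈ pp h s, q • σ = σ := fun q hq => by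
    have : pp h s ≤ stabilizer G σ := (Subgroup.closure_le _).2 (by
      rintro _ (rfl | rfl)
      · refine Set.ext fun B => ⟨?_, fun k => ⟨B, k, hf B (hσ.1 k)⟩⟩
        rintro ⟨C, hC, rfl⟩
        exact (congrArg (· ∈ σ) (hf C (hσ.1 hC))).mpr hC
      · exact sσ)
    exact this hq
  have out : ∀ B ∈ σ, ∀ q ∈ pp h s, q • x ∉ B := fun B hB q hq k => by
    refine hx ⟨q⁻¹ • B, ?_, mem_inv_smul_set_iff.2 k⟩
    rw [← mem_smul_set_iff_inv_smul_mem, inv q hq]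
    exact hB
  obtain ⟨B, hB, nB⟩ := cr A hA
  by_cases m : B ∈ σ
  · exact nB (x0 A B h s x (hL A hA) (hL B hB) z (hf A hA) e (.inr (out B m)))
  · have m' : st T B ∈ σ := not_not.1 fun k => m ((hσ.2 B hB).2 k)
    have a := hL A hA
    have b := hL B hB
    rcases x0 A _ h s x a (hL _ (hs B hB)) z (hf A hA) e (.inr (out _ m')) with k | k | k | k
    · exact nB (.inr (.inl k))
    · exact nB (.inl (b.st_st S ▸ k))
    · have := (a.star S).st_anti S (b.star S) k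
      rw [a.st_st S, b.st_st S] at this
      exact nB (.inr (.inr (.inr this)))
    · have := (b.star S).st_anti S a k
      rw [b.st_st S] at this
      exact nB (.inr (.inr (.inl this)))

/-- the sides of the walls of `L` that miss `F` -/
def sig (T : Tri G X0 X1 X2 X3) (L : Set (Set X0)) (F : Set X0) : Set (Set X0) :=
  {A | A ∈ L ∧ F ⊆ st T A}

theorem sig_ori (S : Std T) {L : Set (Set X0)} (hL : ∀ A ∈ L, Can T A) (hs : ∀ A ∈ L, st T A ∈ L)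
    {F : Set X0} (ne : F.Nonempty) (hF : ∀ A ∈ L, F ⊆ A ∨ F ⊆ st T A) : Ori T L (sig T L F) := by
  obtain ⟨x, hx⟩ := ne
  refine ⟨fun A h => h.1, fun A hA => ⟨fun h k => ?_, fun h => ⟨hA, ?_⟩⟩⟩
  · have := k.2 hx
    rw [(hL A hA).st_st S] at this
    exact (hL A hA).st_sub S (h.2 hx) this
  · exact (hF A hA).resolve_left fun k => h ⟨hs A hA, by rwa [(hL A hA).st_st S]⟩

theorem sig_out (S : Std T) {L : Set (Set X0)} (hL : ∀ A ∈ L, Can T A) {F : Set X0} :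
    F ⊆ (⋃₀ sig T L F)ᶜ := fun _ hx ⟨A, hA, k⟩ => (hL A hA.1).st_sub S (hA.2 hx) k

/-- the cell of a wall that lies on one side of all walls of `L` -/
theorem frontier_bc (S : Std T) (x0 : OneSide T) {L : Set (Set X0)} {H : Subgroup G}
    (hL : ∀ A ∈ L, Can T A) (hs : ∀ A ∈ L, st T A ∈ L) (cr : ∀ A ∈ L, ∃ B ∈ L, ¬ Nst T A B)
    (ne : L.Nonempty) (hH : ∀ g ∈ H, ∀ A ∈ L, g • A ∈ L) (ho : SmP H L)
    (le : ∀ A ∈ L, stabilizer G A ≤ H) {h : G} (h1 : h ≠ 1) (hf : ∀ A ∈ L, h • A = A)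
    (nm : ∀ g ∈ H, g * h * g⁻¹ = h ∨ g * h * g⁻¹ = h⁻¹)
    (rt : ∀ A ∈ L, ∀ (s : G) (k : ℤ), s • A = A → k ≠ 0 → s ^ k ∈ Subgroup.zpowers h →
      s ∈ Subgroup.zpowers h)
    {F : Set X0} (cF : Can T F) (hF : ∀ A ∈ L, F ⊆ A ∨ F ⊆ st T A) :
    ∃ s ∈ H, s • sig T L F = sig T L F ∧ Commute h s ∧ s ∉ Subgroup.zpowers h ∧
      ∀ A ∈ L, s • A ≠ A := by
  obtain ⟨x, hx⟩ : F.Nonempty :=
    nonempty_iff_ne_empty.2 fun e => cF.big S.mfd (e ▸ SmP.empty)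
  have o := sig_ori S hL hs ⟨x, hx⟩ hF
  obtain ⟨A, hA⟩ := ne
  have n : (sig T L F).Nonempty := by
    by_cases m : A ∈ sig T L F
    · exact ⟨A, m⟩
    · exact ⟨_, not_not.1 fun k => m ((o.2 A hA).2 k)⟩
  obtain ⟨s, a, b, c, d⟩ := cell_elt S hL hH ho (fun A hA => (hL A hA).fin.le (le A hA)) o n h1 hf
    nm fun k => cF.thick S.mfd h (k.imp fun _ k => ⟨k.1, fun y hy => k.2 y (sig_out S hL hy)⟩)
  exact ⟨s, a, b, c, d, fun A hA => cell_move S x0 hL hs cr o (sig_out S hL hx) h1 hf rt b c d hA⟩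

theorem Cls.bc {L : Set (Set X0)} (C : Cls T L) (S : Std T) (x0 : OneSide T) (ne : L.Nonempty)
    {h : G} (h1 : h ≠ 1) (hf : ∀ A ∈ L, h • A = A)
    (nm : ∀ g : G, g • L = L → g * h * g⁻¹ = h ∨ g * h * g⁻¹ = h⁻¹)
    (rt : ∀ A ∈ L, ∀ (s : G) (k : ℤ), s • A = A → k ≠ 0 → s ^ k ∈ Subgroup.zpowers h →
      s ∈ Subgroup.zpowers h)
    {F : Set X0} (cF : Can T F) (hF : ∀ A ∈ L, F ⊆ A ∨ F ⊆ st T A) :
    ∃ s : G, s • L = L ∧ s • sig T L F = sig T L F ∧ Commute h s ∧ s ∉ Subgroup.zpowers h ∧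
      ∀ A ∈ L, s • A ≠ A :=
  frontier_bc S x0 (H := stabilizer G L) C.can C.star C.crs ne
    (fun _ hg _ hA => mem_stabilizer_iff.1 hg ▸ smul_mem_smul_set hA) C.fin
    (fun A hA g hg => C.blk g A hA (by rwa [mem_stabilizer_iff.1 hg])) h1 hf nm rt cF hF

end Pool.Agent.Work.MP_3d425c_gt.Cw
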