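import Pool.Agent.Work.MP_3d425c_gt.Cw.Skel
import Pool.Agent.Work.MP_3d425c_gt.Fr.E5

/-! An invariant chain of crossing walls covers all its ends. -/

namespace Pool.Agent.Work.MP_3d425c_gt.Fr
open Set Filter MulAction Pool.Agent.Work.MP_3d425c_gt.Md Pool.Agent.Work.MP_3d425c_gt.Bg
  Pool.Agent.Work.MP_3d425c_gt.Bq Pool.Agent.Work.MP_3d425c_gt.Jw Pool.Agent.Work.MP_3d425c_gt.Cw
open scoped Pointwise

variable {G X0 X1 X2 X3 : Type} [Group G] [MulAction G X0] [MulAction G X1] [MulAction G X2]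
  [MulAction G X3] {T : Tri G X0 X1 X2 X3} {a b c l s : G} {A B D J : Set X0} {U U' : Set X1}

theorem cv_inv (h : a • A = A) (x : X0) : a • x ∈ A ↔ x ∈ A := by
  nth_rewrite 1 [← h]
  exact smul_mem_smul_set_iff

theorem cv_ind (z : Ind a b) : Ind a b⁻¹ := fun m n e => by
  rw [inv_zpow'] at e
  exact (z m _ e).imp_right neg_eq_zero.1

/-- the two halves of a wall -/
theorem cv_half (hA : IsWall T a b A) :
    ∃ U U' : Set X1, Hf a b U ∧ Hf a b⁻¹ U' ∧ cut T A ⊆ U ∪ U' := by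
  obtain ⟨K, hK, k⟩ := hA.fin
  refine ⟨{x | ∃ k ∈ K, ∃ (m : ℤ) (n : ℕ), x = (a ^ m * b ^ n) • k},
    {x | ∃ k ∈ K, ∃ (m : ℤ) (n : ℕ), x = (a ^ m * b⁻¹ ^ n) • k}, ⟨K, hK, fun _ h => h⟩,
    ⟨K, hK, fun _ h => h⟩, fun e he => ?_⟩
  obtain ⟨y, hy, m, n, q⟩ := k e he
  obtain ⟨n, rfl | rfl⟩ := n.eq_nat_or_neg
  · exact .inl ⟨y, hy, m, n, by rw [q, zpow_natCast]⟩
  · exact .inr ⟨y, hy, m, n, by rw [q, zpow_neg, zpow_natCast, inv_pow]⟩

theorem cv_pow (h : ∀ x, b • x ∈ A ↔ x ∈ A) (n : ℕ) (x : X0) : b ^ n • x ∈ A ↔ x ∈ A := by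
  rw [← zpow_natCast]
  exact inv_zp h n x

theorem cv_cut (A D : Set X0) : cut T (A ∩ D) ⊆ cut T A ∪ cut T D := fun e he => by
  by_contra n
  have h1 : T.d1 e 0 ∈ A ↔ T.d1 e 1 ∈ A := by_contra fun k => n (.inl k)
  have h2 : T.d1 e 0 ∈ D ↔ T.d1 e 1 ∈ D := by_contra fun k => n (.inr k)
  exact he (and_congr h1 h2)

theorem cv_cutc (D : Set X0) : cut T Dᶜ = cut T D := Set.ext fun _ => not_congr not_iff_not

theorem cv_lkc (h : Lk b D A) : Lk b Dᶜ Aᶜ := fun x => (h x).mono fun _ => not_congr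

theorem cv_lk0 (h : Lk b A ∅) (D : Set X0) : Lk b (A ∩ D) ∅ := fun x =>
  (h x).mono fun _ q => iff_of_false (fun k => q.1 k.1) id

theorem cv_lk1 (h : Lk b D ∅) (A : Set X0) : Lk b (A ∩ D) ∅ := fun x =>
  (h x).mono fun _ q => iff_of_false (fun k => q.1 k.2) id

theorem cv_drop {E : Set X0} (hE : ∀ x, a • x ∈ E ↔ x ∈ E) (hU : Hf a b U) (hl : Lk b E ∅) :
    Sm a (cut T E ∩ U) := drop hE hU hl fun _ _ => Iff.rfl

/-- A wall whose reversed end and the two ends of `D` give nothing meets `D` in a small set, or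
`D` is constant and empty there. -/
theorem cv_one (hM : Mfd T) (h : Commute a l) (i : Ind a l) (hJ : IsWall T a l J)
    (hD : ∀ x, a • x ∈ D ↔ x ∈ D) (hU : Sm a (cut T (J ∩ D) ∩ cut T D)) (l2 : Lk l⁻¹ D ∅) :
    ¬ Lk l D univ ∧ (Lk l (J ∩ D) ∅ → Sm a (J ∩ D)) := by
  obtain ⟨V, V', v, v', k⟩ := cv_half hJ
  have hE : ∀ x, a • x ∈ J ∩ D ↔ x ∈ J ∩ D := fun x => and_congr (hJ.ia x) (hD x)
  have s2 := (cv_drop (T := T) hE v' (cv_lk1 l2 J)).union hU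
  have sub : cut T (J ∩ D) ⊆ cut T (J ∩ D) ∩ V ∪
      (cut T (J ∩ D) ∩ V' ∪ cut T (J ∩ D) ∩ cut T D) := fun e he =>
    (cv_cut J D he).elim (fun q => (k q).elim (fun r => .inl ⟨he, r⟩) fun r => .inr (.inl ⟨he, r⟩))
      fun q => .inr (.inr ⟨he, q⟩)
  refine ⟨fun l1 => s1 hM h i hJ hE (((v.mono inter_subset_right).union (Hf.of_sm s2)).mono sub)
    fun x => (l1 x).mono fun n q => ?_,
    fun l1 => sm_of_lk hM h i hE (((cv_drop hE v l1).union s2).mono sub) l1⟩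
  exact ⟨fun r => (cv_pow hJ.ib n x).1 r.1, fun r => ⟨(cv_pow hJ.ib n x).2 r, q.2 trivial⟩⟩

theorem cv_const (hM : Mfd T) (hb : Commute a b) (hc : Commute a c) (hU : Hf a b U)
    (hU' : Hf a c U') (cD : cut T D ⊆ U ∪ U') (d : Dif a l b) (d' : Dif a l c) :
    Lk l D univ ∨ Lk l D ∅ :=
  lk_const hM fun e => ((av T.free1 hb d hU e).and (av T.free1 hc d' hU' e)).mono
    fun _ q k => (cD k).elim q.1 q.2

/-- A wall that misses both ends of a chord lies on one side of the chord. -/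
theorem side (hM : Mfd T) (hb : Commute a b) (hc : Commute a c) (hD : ∀ x, a • x ∈ D ↔ x ∈ D)
    (hU : Hf a b U) (hU' : Hf a c U') (cD : cut T D ⊆ U ∪ U') (h : Commute a l) (i : Ind a l)
    (hJ : IsWall T a l J) (d1 : Dif a l b) (d2 : Dif a l c) (d3 : Dif a l⁻¹ b) (d4 : Dif a l⁻¹ c)
    (lb : Lk b J ∅) (lc : Lk c J ∅) : Sm a (J ∩ Dᶜ) ∨ Sm a (J ∩ D) := by
  have key : ∀ E : Set X0, (∀ x, a • x ∈ E ↔ x ∈ E) → cut T E = cut T D →
      Sm a (cut T (J ∩ E) ∩ cut T E) := fun E hE e => by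
    have hE' : ∀ x, a • x ∈ J ∩ E ↔ x ∈ J ∩ E := fun x => and_congr (hJ.ia x) (hE x)
    exact ((cv_drop (T := T) hE' hU (cv_lk0 lb E)).union (cv_drop hE' hU' (cv_lk0 lc E))).mono
      fun x hx => (cD (e ▸ hx.2)).imp (fun q => ⟨hx.1, q⟩) fun q => ⟨hx.1, q⟩
  have hD' : ∀ x, a • x ∈ Dᶜ ↔ x ∈ Dᶜ := fun x => not_congr (hD x)
  have k1 := key D hD rfl
  have k2 := key Dᶜ hD' (cv_cutc D)
  rcases cv_const hM hb hc hU hU' cD d3 d4 with q | q
  · have r := cv_one hM h i hJ hD' k2 (compl_univ (α := X0) ▸ cv_lkc q)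
    rcases cv_const hM hb hc hU hU' cD d1 d2 with p | p
    · exact .inl (r.2 (cv_lk1 (compl_univ (α := X0) ▸ cv_lkc p) J))
    · exact (r.1 (compl_empty (α := X0) ▸ cv_lkc p)).elim
  · have r := cv_one hM h i hJ hD k1 q
    exact .inr (r.2 (cv_lk1 ((cv_const hM hb hc hU hU' cD d1 d2).resolve_left r.1) J))

/-- The wall at an end of a chord. -/
theorem own (hM : Mfd T) (hb : Commute a b) (i : Ind a b) (hc : Commute a c)
    (hD : ∀ x, a • x ∈ D ↔ x ∈ D) (hU : Hf a b U) (hU' : Hf a c U') (cD : cut T D ⊆ U ∪ U')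
    (hA : IsWall T a b A) (d : Dif a b⁻¹ c) (lb : Lk b D A) (lc : Lk c A ∅) : Sm a (A ∩ Dᶜ) := by
  obtain ⟨V, V', v, v', k⟩ := cv_half hA
  have sub : ∀ E : Set X0, cut T E = cut T D → cut T (A ∩ E) ⊆ cut T (A ∩ E) ∩ (V ∪ U) ∪
      (cut T (A ∩ E) ∩ V' ∪ cut T (A ∩ E) ∩ U') := fun E q e he =>
    (cv_cut A E he).elim
      (fun p => (k p).elim (fun r => .inl ⟨he, .inl r⟩) fun r => .inr (.inl ⟨he, r⟩))
      fun p => (cD (q ▸ p)).elim (fun r => .inl ⟨he, .inr r⟩) fun r => .inr (.inr ⟨he, r⟩)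
  rcases cv_const hM hb hc hU hU' cD i.dif.symm d with q | q
  · have hE : ∀ x, a • x ∈ A ∩ Dᶜ ↔ x ∈ A ∩ Dᶜ := fun x => and_congr (hA.ia x) (not_congr (hD x))
    have l1 : Lk b (A ∩ Dᶜ) ∅ := fun x => (lb x).mono fun n p =>
      iff_of_false (fun r => r.2 (p.2 ((cv_pow hA.ib n x).1 r.1))) id
    exact sm_of_lk hM hb i hE (((cv_drop hE (v.union hU) l1).union
      ((cv_drop hE v' (cv_lk1 (compl_univ (α := X0) ▸ cv_lkc q) A)).union
        (cv_drop hE hU' (cv_lk0 lc _)))).mono (sub _ (cv_cutc D))) l1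
  · have hE : ∀ x, a • x ∈ A ∩ D ↔ x ∈ A ∩ D := fun x => and_congr (hA.ia x) (hD x)
    exact (s1 hM hb i hA hE ((((v.union hU).mono inter_subset_right).union (Hf.of_sm
      ((cv_drop hE v' (cv_lk1 q A)).union (cv_drop hE hU' (cv_lk0 lc _))))).mono (sub _ rfl))
      fun x => (lb x).mono fun n p => ⟨fun r => (cv_pow hA.ib n x).1 r.1,
        fun r => ⟨(cv_pow hA.ib n x).2 r, p.2 r⟩⟩).elim

theorem cv_nc (z : Z2 a b) : ¬ IsCyclic (pp a b) := fun k => by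
  obtain ⟨g, hg⟩ := k.exists_zpow_surjective
  obtain ⟨m, hm⟩ := hg ⟨a, Subgroup.subset_closure (.inl rfl)⟩
  obtain ⟨n, hn⟩ := hg ⟨b, Subgroup.subset_closure (.inr rfl)⟩
  have e1 : g.1 ^ m = a := congrArg Subtype.val hm
  have e2 : g.1 ^ n = b := congrArg Subtype.val hn
  generalize g.1 = u at e1 e2
  have := z.2 n (-m) (by rw [← e1, ← e2, ← zpow_mul, ← zpow_mul, ← zpow_add]; simp [mul_comm])
  exact one_ne_zero (z.2 0 1 (by rw [← e2, this.1]; simp)).2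

/-- A canonical wall is a wall of every lattice that fixes it. -/
theorem cv_wall (S : Std T) (hA : Can T A) (z : Z2 a b) (ha : a • A = A) (hb : b • A = A) :
    IsWall T a b A := by
  have le : pp a b ≤ stabilizer G A := (Subgroup.closure_le _).2 (by
    rintro _ (rfl | rfl)
    exacts [ha, hb])
  obtain ⟨e⟩ := hA.z2 S
  exact ⟨cv_inv ha, cv_inv hb, (sm2_iff z).2 (wl_fi hA.fin (wl_rank le e (cv_nc z))),
    fun k => hA.big S.mfd (((sm2_iff z).1 k).le le),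
    fun k => hA.big' S.mfd (((sm2_iff z).1 k).le le)⟩

theorem cv_comm (S : Std T) (hA : Can T A) (ha : a • A = A) (hb : b • A = A) : Commute a b := by
  obtain ⟨e⟩ := hA.z2 S
  exact congrArg Subtype.val (e.injective (a₁ := ⟨a, ha⟩ * ⟨b, hb⟩) (a₂ := ⟨b, hb⟩ * ⟨a, ha⟩)
    (by rw [map_mul, map_mul, mul_comm]))

/-- A canonical wall has a ray. -/
theorem cv_ray (S : Std T) (hA : Can T A) (a1 : a ≠ 1) (ha : a • A = A) :
    ∃ l, l • A = A ∧ Z2 a l := by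
  obtain ⟨p, q, z, -, -, le, -⟩ := hA.idx S.mfd
  have hp : p • A = A := le (Subgroup.subset_closure (.inl rfl))
  have hq : q • A = A := le (Subgroup.subset_closure (.inr rfl))
  have one : ∀ m : ℤ, a ^ m = 1 → m = 0 := fun m e => by_contra fun n =>
    S.tf a a1 (isOfFinOrder_iff_zpow_eq_one.2 ⟨m, n, e⟩)
  by_contra no
  have k : ∀ r : G, r • A = A → ∃ m n : ℤ, n ≠ 0 ∧ r ^ n = a ^ m := fun r hr => by
    by_contra k
    refine no ⟨r, hr, cv_comm S hA ha hr, fun m n e => ?_⟩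
    have n0 : n = 0 := by_contra fun d =>
      k ⟨-m, n, d, by rw [zpow_neg]; exact eq_inv_of_mul_eq_one_right e⟩
    exact ⟨one m (by simpa [n0] using e), n0⟩
  obtain ⟨m, n, n0, e⟩ := k p hp
  obtain ⟨m', n', n0', e'⟩ := k q hq
  have := z.2 (n * m') (-(n' * m)) (by
    rw [zpow_neg, zpow_mul, zpow_mul, e, e', ← zpow_mul, ← zpow_mul, mul_comm m, mul_inv_cancel])
  have m0 : m' = 0 := (mul_eq_zero.1 this.1).resolve_left n0
  exact n0' (z.2 0 n' (by rw [e', m0]; simp)).2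

/-- Ends of different canonical walls are different. -/
theorem cv_dif (S : Std T) (hA : Can T A) (hB : Can T B) (n1 : B ≠ A) (n2 : B ≠ st T A)
    (aA : a • A = A) (aB : a • B = B) (bA : b • A = A) (cB : c • B = B) (zb : Z2 a b)
    (zc : Z2 a c) : Dif a b c := fun m n j e => by
  have n0 : n = 0 := by_contra fun d => by
    have f : b ^ n • B = B := e ▸ mul_mem (zpow_mem (show a ∈ stabilizer G B from aB) m)
      (pow_mem (show c ∈ stabilizer G B from cB) j)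
    refine (hA.comm S hB (a := a) (b := b ^ n) ⟨zb.1.pow_right n, fun p q r => ?_⟩ aA
      (pow_mem (show b ∈ stabilizer G A from bA) n) aB f).elim n1 n2
    rw [← zpow_natCast, ← zpow_mul] at r
    exact (zb.2 _ _ r).imp_right fun t => (mul_eq_zero.1 t).resolve_left (by exact_mod_cast d)
  rw [n0, pow_zero, ← zpow_natCast] at e
  exact ⟨n0, by exact_mod_cast (zc.2 _ _ e.symm).2⟩

theorem cv_fix (h : b • A = A) : b⁻¹ • A = A := inv_mem (show b ∈ stabilizer G A from h)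

theorem cv_z2 (z : Z2 a b) : Z2 a b⁻¹ := ⟨z.1.inv_right, cv_ind z.2⟩

/-- An end of a canonical wall lies inside or outside another canonical wall. -/
theorem cv_or (S : Std T) (hA : Can T A) (hB : Can T B) (n1 : B ≠ A) (n2 : B ≠ st T A)
    (aA : a • A = A) (aB : a • B = B) (bA : b • A = A) (zb : Z2 a b) :
    Lk b B univ ∨ Lk b B ∅ := by
  obtain ⟨l, hl, z⟩ := cv_ray S hB (fun e => one_ne_zero (zb.2 1 0 (by simp [e])).1) aB
  obtain ⟨V, V', v, v', k⟩ := cv_half (cv_wall S hB z aB hl)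
  exact cv_const S.mfd z.1 z.1.inv_right v v' k (cv_dif S hA hB n1 n2 aA aB bA hl zb z)
    (cv_dif S hA hB n1 n2 aA aB bA (cv_fix hl) zb (cv_z2 z))

/-- Every end of an invariant chain of crossing walls is covered. -/
theorem cover (S : Std T) (hs : Commute a s) {Ψ : Set (Set X0)} (can : ∀ A ∈ Ψ, Can T A)
    (fx : ∀ A ∈ Ψ, a • A = A) (sΨ : ∀ A, s • A ∈ Ψ ↔ A ∈ Ψ) (ns : ∀ A ∈ Ψ, st T A ∉ Ψ)
    (hA : A ∈ Ψ) (mv : s • A ≠ A)
    (ch : Relation.ReflTransGen (fun B C => C ∈ Ψ ∧ ¬ Nst T B C) A (s • A))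
    (z : Z2 a b) (hb : b • A = A) : ∃ J ∈ Ψ, Lk b J univ := by
  by_contra no
  have hM := S.mfd
  have a1 : a ≠ 1 := fun e => one_ne_zero (z.2 1 0 (by simp [e])).1
  have hA' := (sΨ A).2 hA
  have ne : ∀ B ∈ Ψ, ∀ C ∈ Ψ, C ≠ st T B := fun B hB C hC e => ns B hB (e ▸ hC)
  have z' : Z2 a (s * b * s⁻¹) := ⟨(hs.mul_right z.1).mul_right hs.inv_right, fun m n e => by
    refine z.2 m n ?_
    rw [conj_zpow, ← mul_assoc, ← mul_assoc, (hs.zpow_left m).eq, mul_inv_eq_one, mul_assoc] at e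
    exact mul_left_cancel (e.trans (mul_one s).symm)⟩
  have hb' : (s * b * s⁻¹) • s • A = s • A := by rw [mul_smul, mul_smul, inv_smul_smul, hb]
  have l1 : ∀ J ∈ Ψ, J ≠ A → Lk b J ∅ := fun J hJ n =>
    (cv_or S (can A hA) (can J hJ) n (ne A hA J hJ) (fx A hA) (fx J hJ) hb z).resolve_left
      fun k => no ⟨J, hJ, k⟩
  have l2 : ∀ J ∈ Ψ, J ≠ s • A → Lk (s * b * s⁻¹) J ∅ := fun J hJ n x =>
    (l1 (s⁻¹ • J) ((sΨ _).1 (by rwa [smul_inv_smul])) (fun e => n (by rw [← e, smul_inv_smul]))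
      (s⁻¹ • x)).mono fun k q => iff_of_false (fun r => q.1 (by
        rwa [conj_pow, mul_smul, mul_smul, ← mem_inv_smul_set_iff] at r)) id
  have df : ∀ {B C p q}, B ∈ Ψ → C ∈ Ψ → C ≠ B → p • B = B → q • C = C → Z2 a p → Z2 a q →
      Dif a p q := fun hB hC n hp hq zp zq =>
    cv_dif S (can _ hB) (can _ hC) n (ne _ hB _ hC) (fx _ hB) (fx _ hC) hp hq zp zq
  have w1 := cv_wall S (can A hA) z (fx A hA) hb
  have w2 := cv_wall S (can _ hA') z' (fx _ hA') hb'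
  obtain ⟨D, U, U', hU, hU', hD, cD, lb, lc⟩ := e5 hM S.nh z.1 z.2 hs (df hA hA' mv hb hb' z z') w1
  rw [show tr s A = s • A from Set.ext fun _ => mem_smul_set_iff_inv_smul_mem.symm] at lc
  have bf := own hM z.1 z.2 z'.1 hD hU hU' cD w1 (df hA hA' mv (cv_fix hb) hb' (cv_z2 z) z') lb
    (l2 A hA mv.symm)
  have af : Sm a (s • A ∩ D) := compl_compl D ▸ own hM z'.1 z'.2 z.1 (fun x => not_congr (hD x))
    hU' hU (by rw [cv_cutc, union_comm]; exact cD) w2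
    (df hA' hA mv.symm (cv_fix hb') hb (cv_z2 z') z) (compl_compl (s • A) ▸ cv_lkc lc)
    (l1 _ hA' mv)
  have all : ∀ J ∈ Ψ, Sm a (J ∩ Dᶜ) ∨ Sm a (J ∩ D) := fun J hJ => by
    by_cases n1 : J = A
    · exact .inl (n1 ▸ bf)
    by_cases n2 : J = s • A
    · exact .inr (n2 ▸ af)
    obtain ⟨l, hl, y⟩ := cv_ray S (can J hJ) a1 (fx J hJ)
    exact side hM z.1 z'.1 hD hU hU' cD y.1 y.2 (cv_wall S (can J hJ) y (fx J hJ) hl)
      (df hJ hA (Ne.symm n1) hl hb y z) (df hJ hA' (Ne.symm n2) hl hb' y z')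
      (df hJ hA (Ne.symm n1) (cv_fix hl) hb (cv_z2 y) z)
      (df hJ hA' (Ne.symm n2) (cv_fix hl) hb' (cv_z2 y) z') (l1 J hJ n1) (l2 J hJ n2)
  have two : ∀ B C : Set X0, Sm a (B ∩ Dᶜ) → Sm a (C ∩ D) → SmP (Subgroup.zpowers a) (B ∩ C) :=
    fun B C p q => smP_zpowers.2 ((p.union q).mono fun x hx => by
      by_cases m : x ∈ D
      exacts [.inr ⟨hx.2, m⟩, .inl ⟨hx.1, m⟩])
  have fin : ∀ C, Relation.ReflTransGen (fun B C => C ∈ Ψ ∧ ¬ Nst T B C) A C →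
      C ∈ Ψ ∧ Sm a (C ∩ Dᶜ) := fun C h => by
    induction h with
    | refl => exact ⟨hA, bf⟩
    | @tail B C _ k ih =>
      refine ⟨k.1, (all C k.1).resolve_right fun q => k.2 ((can B ih.1).nst S (can C k.1)
        (.inr (.inl ((two B C ih.2 q).le ?_))))⟩
      exact Subgroup.zpowers_le.2 ⟨fx B ih.1, fx C k.1⟩
  exact (can _ hA').big hM (((two _ _ (fin _ ch).2 af).le
    (Subgroup.zpowers_le.2 (fx _ hA'))).mono fun x hx => ⟨hx, hx⟩)

/-- The same, for a family in which any two members are joined by a chain. -/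
theorem cov (S : Std T) : ∀ (h s : G) (P : Set (Set X0)), h ≠ 1 → Commute h s →
    (∀ A ∈ P, Can T A) → (∀ A ∈ P, h • A = A) → (∀ A, s • A ∈ P ↔ A ∈ P) →
    (∀ A ∈ P, st T A ∉ P) → (∀ A ∈ P, s • A ≠ A) →
    (∀ A ∈ P, ∀ B ∈ P, Relation.ReflTransGen (fun U V => U ∈ P ∧ V ∈ P ∧ ¬ Nst T U V) A B) →
    ∀ A ∈ P, ∀ t, Z2 h t → t • A = A → ∃ J ∈ P, ∀ x, ∀ᶠ n : ℕ in atTop, t ^ n • x ∈ J :=
  fun _ _ _ _ hs can fx sP ns mv ch A hA _ z ht =>
    (cover S hs can fx sP ns hA (mv A hA)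
      (Relation.ReflTransGen.mono (fun _ _ (k : _ ∧ _ ∧ _) => k.2) _ _ (ch A hA _ ((sP A).2 hA)))
      z ht).imp fun _ k => ⟨k.1, fun x => (k.2 x).mono fun _ q => q.2 trivial⟩

end Pool.Agent.Work.MP_3d425c_gt.Fr
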