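import Pool.Agent.Work.MP_3d425c_gt.Jw.Root
import Pool.Agent.Work.MP_3d425c_gt.Cw.Tree

/-! Two walls with a common element give a lattice that fixes no wall outside them. -/

namespace Pool.Agent.Work.MP_3d425c_gt.Fr
open Set Filter MulAction Pool.Agent.Work.MP_3d425c_gt.Md Pool.Agent.Work.MP_3d425c_gt.Bg
  Pool.Agent.Work.MP_3d425c_gt.Jw Pool.Agent.Work.MP_3d425c_gt.Bq Pool.Agent.Work.MP_3d425c_gt.Cw
open scoped Pointwise

variable {G X0 X1 X2 X3 : Type} [Group G] [MulAction G X0] [MulAction G X1] [MulAction G X2]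
  [MulAction G X3] {T : Tri G X0 X1 X2 X3} {h p q g : G} {A B C C' D D' : Set X0} {L L' : List G}

namespace Sw

theorem tr_eq {X : Type} [MulAction G X] (g : G) (D : Set X) : tr g D = g • D :=
  Set.ext fun _ => mem_smul_set_iff_inv_smul_mem.symm

theorem fix_iff : g • D = D ↔ ∀ x, g • x ∈ D ↔ x ∈ D :=
  ⟨fun e x => by rw [← smul_mem_smul_set_iff (a := g) (x := x), e], fun k => Set.ext fun x => by
    rw [mem_smul_set_iff_inv_smul_mem, ← k, smul_inv_smul]⟩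

theorem lk_inter (k : Lk p D C) (l : Lk p D' C') : Lk p (D ∩ D') (C ∩ C') :=
  fun x => ((k x).and (l x)).mono fun _ r => and_congr r.1 r.2

theorem lk_compl (k : Lk p D C) : Lk p Dᶜ Cᶜ := fun x => (k x).mono fun _ r => not_congr r

theorem lk_smul (k : Lk p D C) (g : G) : Lk (g * p * g⁻¹) (g • D) (g • C) := fun x =>
  (k (g⁻¹ • x)).mono fun n r => by
    rw [mem_smul_set_iff_inv_smul_mem, mem_smul_set_iff_inv_smul_mem, ← r, conj_pow, mul_smul,
      mul_smul, inv_smul_smul]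

theorem lk_self (e : p • A = A) : Lk p A A := fun x => Eventually.of_forall fun n =>
  fix_iff.1 ((stabilizer G A).pow_mem e n) x

theorem lk_l (k : Lk p D ∅) : Lk p (D ∩ D') ∅ :=
  fun x => (k x).mono fun _ r => iff_of_false (fun m => r.1 m.1) id

theorem lk_r (k : Lk p D' ∅) : Lk p (D ∩ D') ∅ :=
  fun x => (k x).mono fun _ r => iff_of_false (fun m => r.1 m.2) id

theorem lk_c (k : Lk p D univ) : Lk p Dᶜ ∅ :=
  fun x => (k x).mono fun _ r => iff_of_false (fun m => m (r.2 trivial)) id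

theorem lk_d (k : Lk p D C) (l : Lk p D' C) : Lk p (D ∩ D'ᶜ) ∅ :=
  fun x => ((k x).and (l x)).mono fun _ r => iff_of_false (fun m => m.2 (r.2.2 (r.1.1 m.1))) id

theorem sm_smul (c : Commute h g) (s : Sm h D) : Sm h (g • D) := tr_eq g D ▸ sm_tr c s

theorem lk_sm (T : Tri G X0 X1 X2 X3) (z : Z2 h p) (s : Sm h (D' ∩ Dᶜ)) (k : Lk p D ∅) :
    Lk p D' ∅ := fun x => ((k x).and (av_sm T.free z.1 z.2 s x)).mono fun _ r =>
  iff_of_false (fun m => r.2 ⟨m, r.1.1⟩) id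

/-- an invariant set whose boundary runs in the directions of the list -/
def Ed (T : Tri G X0 X1 X2 X3) (h : G) (D : Set X0) (L : List G) : Prop :=
  h • D = D ∧ ∃ (S : Set X1) (f : G → Set X1), Sm h S ∧ (∀ t, Hf h t (f t)) ∧
    ∀ e ∈ cut T D, e ∈ S ∨ ∃ t ∈ L, e ∈ f t

theorem Ed.compl (k : Ed T h D L) : Ed T h Dᶜ L := by
  obtain ⟨i, S, f, a, b, c⟩ := k
  exact ⟨by rw [smul_set_compl, i], S, f, a, b, fun e he => c e fun r => he (not_congr r)⟩

theorem Ed.inter (k : Ed T h D L) (l : Ed T h D' L') : Ed T h (D ∩ D') (L ++ L') := by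
  obtain ⟨i, S, f, a, b, c⟩ := k
  obtain ⟨i', S', f', a', b', c'⟩ := l
  refine ⟨by rw [smul_set_inter, i, i'], S ∪ S', fun t => f t ∪ f' t, a.union a',
    fun t => (b t).union (b' t), fun e he => ?_⟩
  by_cases m : e ∈ cut T D
  · exact (c e m).imp .inl fun ⟨t, r, s⟩ => ⟨t, List.mem_append_left _ r, .inl s⟩
  · exact (c' e fun r => he (and_congr (not_not.1 m) r)).imp .inr
      fun ⟨t, r, s⟩ => ⟨t, List.mem_append_right _ r, .inr s⟩

theorem Ed.smul (k : Ed T h D L) (c : Commute h g) :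
    Ed T h (g • D) (L.map fun t => g * t * g⁻¹) := by
  obtain ⟨i, S, f, a, b, d⟩ := k
  refine ⟨by rw [← mul_smul, c.eq, mul_smul, i], tr g S, fun t => tr g (f (g⁻¹ * t * g)),
    sm_tr c a, fun t => ?_, fun e he => ?_⟩
  · have := (b (g⁻¹ * t * g)).tr c
    rwa [show g * (g⁻¹ * t * g) * g⁻¹ = t by group] at this
  · rw [← tr_eq, cut_tr] at he
    refine (d _ he).imp id fun ⟨t, r, s⟩ => ⟨_, List.mem_map_of_mem r, ?_⟩
    show g⁻¹ • e ∈ f (g⁻¹ * (g * t * g⁻¹) * g)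
    rwa [show g⁻¹ * (g * t * g⁻¹) * g = t by group]

theorem Ed.red (k : Ed T h D L) (r : ∀ t ∈ L, t = p ∨ Lk t D ∅) : Hf h p (cut T D) := by
  obtain ⟨i, S, f, a, b, c⟩ := k
  have key : ∀ M : List G, (∀ t ∈ M, t = p ∨ Lk t D ∅) →
      Hf h p {e | e ∈ cut T D ∧ ∃ t ∈ M, e ∈ f t} := fun M => by
    induction M with
    | nil => exact fun _ => ⟨∅, finite_empty, fun e ⟨_, _, m, _⟩ => absurd m List.not_mem_nil⟩
    | cons t M ih =>
      intro r
      have : Hf h p (cut T D ∩ f t) := by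
        rcases r t List.mem_cons_self with rfl | l
        · exact (b t).mono inter_subset_right
        · exact Hf.of_sm (drop (fix_iff.1 i) (b t) l fun _ _ => Iff.rfl)
      refine (this.union (ih fun u m => r u (List.mem_cons_of_mem _ m))).mono ?_
      rintro e ⟨he, u, m, s⟩
      rcases List.mem_cons.1 m with rfl | m
      exacts [.inl ⟨he, s⟩, .inr ⟨he, u, m, s⟩]
  exact ((Hf.of_sm a).union (key L r)).mono fun e he => (c e he).imp id fun s => ⟨he, s⟩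

theorem Ed.zero (hM : Mfd T) (k : Ed T h D L) (z : Z2 h p) (r : ∀ t ∈ L, Lk t D ∅)
    (l : Lk p D ∅) : Sm h D :=
  sm_of_lk hM z.1 z.2 (fix_iff.1 k.1) ((drop (fix_iff.1 k.1) (k.red fun t m => .inr (r t m)) l
    fun _ _ => Iff.rfl).mono fun _ he => ⟨he, he⟩) l

theorem Ed.one (hM : Mfd T) (k : Ed T h D L) (z : Z2 h p) (r : ∀ t ∈ L, t = p ∨ Lk t D ∅)
    (w : IsWall T h p A) (l : Lk p D A) : False :=
  s1 hM z.1 z.2 w (fix_iff.1 k.1) (k.red r) l

theorem Ed.const (hM : Mfd T) (k : Ed T h D L) (z : Z2 h p)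
    (r : ∀ t ∈ L, Commute h t ∧ Dif h p t) : Lk p D univ ∨ Lk p D ∅ := by
  obtain ⟨-, S, f, a, b, c⟩ := k
  refine lk_const hM fun e => ((av_sm T.free1 z.1 z.2 a e).and
    ((eventually_all_finite L.finite_toSet).2 fun t m =>
      av T.free1 (r t m).1 (r t m).2 (b t) e)).mono fun n s m => ?_
  exact (c _ m).elim s.1 fun ⟨t, u, v⟩ => s.2 t u v

theorem ed_two (i : h • D = D) {S S' : Set X1} (a : Hf h p S) (b : Hf h q S')
    (c : cut T D ⊆ S ∪ S') : Ed T h D [p, q] := by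
  have k : ∀ {u : G} {R : Set X1}, Hf h u R → ∀ t, Hf h t {e | t = u ∧ e ∈ R} := fun {u R} r t => by
    by_cases e : t = u
    · exact e ▸ r.mono fun _ m => m.2
    · exact ⟨∅, finite_empty, fun _ m => absurd m.1 e⟩
  refine ⟨i, ∅, fun t => {e | t = p ∧ e ∈ S} ∪ {e | t = q ∧ e ∈ S'},
    ⟨∅, finite_empty, fun _ m => m.elim⟩, fun t => (k a t).union (k b t), fun e he => .inr ?_⟩
  rcases c he with m | m
  exacts [⟨p, by simp, .inl ⟨rfl, m⟩⟩, ⟨q, by simp, .inr ⟨rfl, m⟩⟩]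

theorem ed_wall (w : IsWall T h p A) : Ed T h A [p, p⁻¹] := by
  obtain ⟨K, hK, k⟩ := w.fin
  refine ed_two (fix_iff.2 w.ia) (S := {x | ∃ k ∈ K, ∃ (m : ℤ) (n : ℕ), x = (h ^ m * p ^ n) • k})
    (S' := {x | ∃ k ∈ K, ∃ (m : ℤ) (n : ℕ), x = (h ^ m * p⁻¹ ^ n) • k}) ⟨K, hK, fun _ m => m⟩
    ⟨K, hK, fun _ m => m⟩ fun e he => ?_
  obtain ⟨y, hy, m, n, r⟩ := k e he
  obtain ⟨j, rfl | rfl⟩ := Int.eq_nat_or_neg n
  · exact .inl ⟨y, hy, m, j, by rwa [zpow_natCast] at r⟩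
  · exact .inr ⟨y, hy, m, j, by rwa [zpow_neg, zpow_natCast, ← inv_pow] at r⟩

theorem wall_smul (c : Commute h g) (w : IsWall T h p A) : IsWall T h (g * p * g⁻¹) (g • A) := by
  have t : ∀ {X : Type} [MulAction G X] {u v k : G} {R : Set X}, Commute h k → v = k * u * k⁻¹ →
      Sm2 h u R → Sm2 h v (k • R) := fun {X} _ {u v k R} c e ⟨K, hK, s⟩ =>
    ⟨k • K, hK.smul_set, fun x ⟨y, hy, ex⟩ => by
      obtain ⟨w, hw, m, n, r⟩ := s y hy
      refine ⟨_, smul_mem_smul_set hw, m, n, ?_⟩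
      have ex' : k • y = x := ex
      rw [← ex', r, e, conj_zpow, ← mul_smul, ← mul_smul, ← mul_assoc, ← (c.zpow_left m).eq]
      congr 1
      group⟩
  have u : ∀ {R : Set X0}, Sm2 h (g * p * g⁻¹) (g • R) → Sm2 h p R := fun {R} s => by
    have := t (v := p) c.inv_right (by group) s
    rwa [inv_smul_smul] at this
  refine ⟨fix_iff.1 ?_, fix_iff.1 ?_, ?_, fun s => w.big (u s), fun s => w.big' (u ?_)⟩
  · rw [← mul_smul, c.eq, mul_smul, fix_iff.2 w.ia]
  · rw [mul_smul, inv_smul_smul, mul_smul, fix_iff.2 w.ib]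
  · rw [← tr_eq, cut_tr, tr_eq]
    exact t c rfl w.fin
  · rwa [smul_set_compl]

theorem z_inv (z : Z2 h p) : Z2 h p⁻¹ :=
  ⟨z.1.inv_right, fun m n e => by
    have := z.2 m (-n) (by rwa [zpow_neg, ← inv_zpow])
    omega⟩

theorem z_conj (z : Z2 h p) (c : Commute h g) : Z2 h (g * p * g⁻¹) :=
  ⟨(c.mul_right z.1).mul_right c.inv_right, fun m n e => z.2 m n (by
    rw [conj_zpow, ← mul_assoc, ← mul_assoc, (c.zpow_left m).eq, mul_inv_eq_one, mul_assoc,
      mul_eq_left] at e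
    exact e)⟩

theorem z_pow (z : Z2 h p) {n : ℕ} (n0 : n ≠ 0) : Z2 h (p ^ n) :=
  ⟨z.1.pow_right n, fun i j e => by
    rw [← zpow_natCast, ← zpow_mul] at e
    exact (z.2 _ _ e).imp_right fun r => (mul_eq_zero.1 r).resolve_left (Int.natCast_ne_zero.2 n0)⟩

/-- one of the two translations along the first end moves the chord almost into itself -/
theorem flip (hM : Mfd T) (zp : Z2 h p) (zq : Z2 h q) (d : Dif h q p)
    (d1 : Dif h q (p * q * p⁻¹)) (d2 : Dif h (p * q * p⁻¹) p) (E : Ed T h D [p, q])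
    (iA : p • A = A) (lp : Lk p D A) (w : IsWall T h q B) (lq : Lk q D B) :
    ∃ a, (a = p ∨ a = p⁻¹) ∧ Sm h (a • D ∩ Dᶜ) ∧ Lk q (a⁻¹ • D) univ := by
  have zr := z_conj zq zp.1
  have E' : Ed T h (p • D) [p, p * q * p⁻¹] := by simpa using E.smul zp.1
  have lp' : Lk p (p • D) A := by simpa [iA] using lk_smul lp p
  have c1 := E'.const hM zq (by simp [zp.1, zr.1, d, d1])
  have c2 := E.const hM zr (by simp [zp.1, zq.1, d2, d1.symm])
  have E1 := E'.inter E.compl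
  rcases c1 with c1 | c1 <;> rcases c2 with c2 | c2
  · refine (E1.one hM zq ?_ w.compl (by simpa using lk_inter c1 (lk_compl lq))).elim
    simp [lk_d lp' lp, lk_r (lk_c c2)]
  · refine ⟨p⁻¹, .inr rfl, ?_, by rwa [inv_inv]⟩
    have := sm_smul zp.1.inv_right ((E.inter E'.compl).zero hM zp
      (by simp [lk_d lp lp', lk_r (lk_c c1), lk_l c2]) (lk_d lp lp'))
    rwa [smul_set_inter, smul_set_compl, inv_smul_smul] at this
  · refine ⟨p, .inl rfl, E1.zero hM zp (by simp [lk_d lp' lp, lk_r (lk_c c2), lk_l c1])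
      (lk_d lp' lp), ?_⟩
    simpa [mul_assoc] using lk_smul c2 p⁻¹
  · refine (E1.one hM zr ?_ (wall_smul zp.1 w)
      (by simpa using lk_inter (lk_smul lq p) (lk_compl c2))).elim
    simp [lk_d lp' lp, lk_l c1]

theorem tel (c : Commute h g) (s : Sm h (g • D ∩ Dᶜ)) (l : Lk g D ∅) : Hf h g⁻¹ D := by
  classical
  obtain ⟨K, hK, k⟩ := s
  refine ⟨K, hK, fun x hx => ?_⟩
  have ex : ∃ n : ℕ, g ^ n • x ∉ D := (l x).exists.imp fun _ r => r.1
  have n0 : Nat.find ex ≠ 0 := fun e => Nat.find_spec ex (by rwa [e, pow_zero, one_smul])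
  obtain ⟨j, e⟩ := Nat.exists_eq_succ_of_ne_zero n0
  have m1 : g ^ (j + 1) • x ∉ D := by simpa only [e] using Nat.find_spec ex
  have m2 : g ^ j • x ∈ D := not_not.1 (Nat.find_min ex (by omega))
  obtain ⟨y, hy, m, r⟩ := k (g ^ (j + 1) • x)
    ⟨by rw [pow_succ', mul_smul]; exact smul_mem_smul_set m2, m1⟩
  refine ⟨y, hy, m, j + 1, ?_⟩
  rw [((c.inv_right.pow_right _).zpow_left m).eq, mul_smul, ← r, inv_pow, inv_smul_smul]

theorem ind (T : Tri G X0 X1 X2 X3) (z : Z2 h p) (c : Commute h g) (i : h • D = D)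
    (s : Sm h (g • D ∩ Dᶜ)) (l : Lk p (g • D) ∅) (lp : Lk p D A) (ne : ∃ x, x ∈ A) : Z2 h g := by
  have k : ∀ j : ℕ, Lk p (g ^ (j + 1) • D) ∅ := fun j => by
    induction j with
    | zero => rwa [zero_add, pow_one]
    | succ j ih =>
      refine lk_sm T z ?_ ih
      have := sm_smul (c.pow_right (j + 1)) s
      rwa [smul_set_inter, smul_set_compl, ← mul_smul, ← pow_succ] at this
  have k' : ∀ j : ℕ, g ^ j ∈ stabilizer G D → j = 0 := fun j m => by
    rcases j with _ | j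
    · rfl
    obtain ⟨x, hx⟩ := ne
    have := k j
    rw [mem_stabilizer_iff.1 m] at this
    obtain ⟨n, r1, r2⟩ := ((this x).and (lp x)).exists
    exact (r1.1 (r2.2 hx)).elim
  refine ⟨c, fun m n e => ?_⟩
  have gm : g ^ n ∈ stabilizer G D := by
    rw [eq_inv_of_mul_eq_one_right e]
    exact (stabilizer G D).inv_mem ((stabilizer G D).zpow_mem i m)
  have n0 : n = 0 := by
    obtain ⟨j, rfl | rfl⟩ := Int.eq_nat_or_neg n
    · rw [k' j (by rwa [zpow_natCast] at gm), Nat.cast_zero]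
    · rw [k' j (by rwa [zpow_neg, zpow_natCast, inv_mem_iff] at gm), Nat.cast_zero, neg_zero]
  exact ⟨(z.2 m 0 (by simpa only [n0, zpow_zero] using e)).1, n0⟩

/-- a wall with a ray -/
structure Wr (T : Tri G X0 X1 X2 X3) (h : G) (A : Set X0) (p : G) : Prop where
  can : Can T A
  z : Z2 h p
  fh : h • A = A
  fp : p • A = A

theorem Wr.inv (r : Wr T h A p) : Wr T h A p⁻¹ :=
  ⟨r.can, z_inv r.z, r.fh, (stabilizer G A).inv_mem r.fp⟩

theorem Wr.smul (r : Wr T h A p) (c : Commute h g) : Wr T h (g • A) (g * p * g⁻¹) :=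
  ⟨r.can.smul g, z_conj r.z c, by rw [← mul_smul, c.eq, mul_smul, r.fh],
    by rw [mul_smul, inv_smul_smul, mul_smul, r.fp]⟩

theorem Wr.wall (S : Std T) (r : Wr T h A p) : IsWall T h p A :=
  (cn_fix S.mfd r.can r.z r.fh r.fp).1

/-- different walls -/
def Ap (T : Tri G X0 X1 X2 X3) (A B : Set X0) : Prop := B ≠ A ∧ B ≠ st T A

theorem Ap.symm (S : Std T) (hB : Can T B) (a : Ap T A B) : Ap T B A :=
  ⟨a.1.symm, fun e => a.2 (by rw [e, hB.st_st S])⟩

theorem st_fix (S : Std T) (hA : Can T A) : g • st T A = st T A ↔ g • A = A := by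
  rw [← mem_stabilizer_iff, cn_st_eq S hA, mem_stabilizer_iff]

theorem Wr.nfix (S : Std T) (r : Wr T h A p) (hB : Can T B) (f : h • B = B) (a : Ap T A B) :
    p • B ≠ B := fun e => (r.can.comm S hB r.z r.fh r.fp f e).elim a.1 a.2

theorem Wr.dif (S : Std T) (r : Wr T h A p) (s : Wr T h B q) (a : Ap T A B) : Dif h p q :=
  fun m n j e => by
    have n0 : n = 0 := by_contra fun n0 => Wr.nfix S
      ⟨r.can, z_pow r.z n0, r.fh, (stabilizer G A).pow_mem r.fp n⟩ s.can s.fh a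
      (e ▸ (stabilizer G B).mul_mem ((stabilizer G B).zpow_mem s.fh m)
        ((stabilizer G B).pow_mem s.fp j))
    have := (s.z.2 m j (by rw [zpow_natCast, ← e, n0, pow_zero])).2
    omega

theorem Wr.ap (S : Std T) (r : Wr T h A p) (s : Wr T h B q) (a : Ap T A B) :
    Ap T B (p • B) ∧ Ap T A (p • B) := by
  refine ⟨⟨r.nfix S s.can s.fh a, fun e => Wr.nfix S
    ⟨r.can, z_pow r.z two_ne_zero, r.fh, (stabilizer G A).pow_mem r.fp 2⟩ s.can s.fh a ?_⟩,
    fun e => a.1 ?_, fun e => a.2 ?_⟩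
  · rw [pow_two, mul_smul, e, ← s.can.st_smul S, e, s.can.st_st S]
  · exact smul_left_cancel p (e.trans r.fp.symm)
  · exact smul_left_cancel p (e.trans ((st_fix S r.can).2 r.fp).symm)

theorem Wr.flip (S : Std T) (r : Wr T h A p) (s : Wr T h B q) (a : Ap T A B)
    (E : Ed T h D [p, q]) (iC : p • C = C) (lp : Lk p D C) (w : IsWall T h q C')
    (lq : Lk q D C') : ∃ a, Wr T h A a ∧ Commute a p ∧ Sm h (a • D ∩ Dᶜ) ∧
      Lk q (a⁻¹ • D) univ := by
  obtain ⟨b, k, l⟩ := Sw.flip S.mfd r.z s.z (r.dif S s a).symm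
    (s.dif S (s.smul r.z.1) (r.ap S s a).1) (r.dif S (s.smul r.z.1) (r.ap S s a).2).symm
    E iC lp w lq
  rcases k with rfl | rfl
  exacts [⟨_, r, Commute.refl _, l⟩, ⟨_, r.inv, (Commute.refl p).inv_left, l⟩]

theorem lk_out {g : G} (S : Std T) (r : Wr T h A p) (s : Wr T h B g) (a : Ap T A B)
    (d : B ⊆ Aᶜ) : Lk p B ∅ := by
  refine ((ed_wall (s.wall S)).const S.mfd r.z (by
    simp [s.z.1, r.dif S s a, r.dif S s.inv a])).resolve_left fun k => ?_
  obtain ⟨x, hx⟩ := (r.wall S).ne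
  obtain ⟨n, r1, r2⟩ := ((k x).and (lk_self r.fp x)).exists
  exact d (r1.2 trivial) (r2.2 hx)

/-- the lattice that fixes no wall outside the two walls -/
theorem gap (S : Std T) (r : Wr T h A p) (s : Wr T h B q) (a : Ap T A B) :
    ∃ α β : G, α • A = A ∧ β • B = B ∧ Z2 h (α * β) ∧ ∀ F, Can T F → h • F = F →
      (α * β) • F = F → Ap T A F ∧ Ap T B F ∧ ¬ (F ⊆ Aᶜ ∧ F ⊆ Bᶜ) := by
  have wA := r.wall S
  have a' := a.symm S s.can
  obtain ⟨D, B', R, R', hR, hR', wB, iD, cD, lp, lq⟩ :=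
    chord S.mfd r.z.1 r.z.2 s.z.1 s.z.2 (r.dif S s a) wA (s.wall S)
  have i := fix_iff.2 iD
  have E := ed_two i hR hR' cD
  obtain ⟨α, rα, cα, sα, -⟩ := r.flip S s a E r.fp lp wB lq
  obtain ⟨β, rβ, -, sβ, lβ⟩ := s.flip S r a' (ed_two i hR' hR (union_comm _ _ ▸ cD)).compl
    (fix_iff.2 wB.compl.ib) (lk_compl lq) wA.compl (lk_compl lp)
  replace rβ := rβ.inv
  have c : Commute h (α * β⁻¹) := rα.z.1.mul_right rβ.z.1
  have sm : Sm h ((α * β⁻¹) • D ∩ Dᶜ) := by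
    have := sm_smul c sβ
    rw [smul_set_inter, ← mul_smul, inv_mul_cancel_right, compl_compl, smul_set_compl] at this
    exact (this.union sα).mono fun x m => by
      by_cases k : x ∈ α • D
      exacts [.inr ⟨k, m.2⟩, .inl ⟨k, m.1⟩]
  have l0 : Lk p ((α * β⁻¹) • D) ∅ := by
    have := lk_smul (lk_c lβ) α
    rwa [cα.eq, mul_inv_cancel_right, smul_set_compl (a := β⁻¹), compl_compl, ← mul_smul,
      smul_set_empty] at this
  have z := ind T r.z c i sm l0 lp wA.ne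
  refine ⟨α, β⁻¹, rα.fp, rβ.fp, z, fun F hF f1 f2 => ?_⟩
  have nA : (α * β⁻¹) • A ≠ A := fun e => rβ.nfix S r.can r.fh a'
    (smul_left_cancel α (by rw [← mul_smul, e, rα.fp]))
  have nB : (α * β⁻¹) • B ≠ B := fun e => rα.nfix S s.can s.fh a (by rwa [mul_smul, rβ.fp] at e)
  have aA : Ap T A F := ⟨fun e => nA (e ▸ f2), fun e => nA ((st_fix S r.can).1 (e ▸ f2))⟩
  have aB : Ap T B F := ⟨fun e => nB (e ▸ f2), fun e => nB ((st_fix S s.can).1 (e ▸ f2))⟩
  refine ⟨aA, aB, fun ⟨dA, dB⟩ => ?_⟩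
  have t : Wr T h F (α * β⁻¹) := ⟨hF, z, f1, f2⟩
  rcases E.const S.mfd z (by
    simp [r.z.1, s.z.1, (r.dif S t aA).symm, (s.dif S t aB).symm]) with c1 | c1
  · rcases E.const S.mfd t.inv.z (by
      simp only [List.forall_mem_cons]
      simp [-mul_inv_rev, r.z.1, s.z.1, (r.dif S t.inv aA).symm, (s.dif S t.inv aB).symm])
      with c2 | c2
    · have := sm_smul c.inv_right sm
      rw [smul_set_inter, inv_smul_smul, inter_comm, ← compl_compl D, compl_compl Dᶜ] at this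
      have k := tel c.inv_right this (lk_c c2)
      obtain ⟨x, hx⟩ := wB.compl.ne
      obtain ⟨n, r1, r2⟩ := ((av T.free t.inv.inv.z.1 (s.dif S t.inv.inv aB) k x).and (lq x)).exists
      exact r1 fun m => hx (r2.1 m)
    · refine ((ed_wall (t.wall S)).inter E).one S.mfd z ?_ (t.wall S)
        (by simpa using lk_inter (lk_self f2) c1)
      simp [-mul_inv_rev, lk_r c2, lk_l (lk_out S r t aA dA), lk_l (lk_out S s t aB dB)]
  · obtain ⟨x, hx⟩ := wA.ne
    obtain ⟨n, r1, r2⟩ :=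
      ((av T.free t.inv.z.1 (r.dif S t.inv aA) (tel c sm c1) x).and (lp x)).exists
    exact r1 (r2.2 hx)

theorem ray (S : Std T) (hA : Can T A) (h1 : h ≠ 1) (f : h • A = A) : ∃ p, Wr T h A p := by
  obtain ⟨i⟩ := hA.z2 S
  obtain ⟨a, b, z, -, -, le, -⟩ := hA.idx S.mfd
  have ha : a • A = A := le (Subgroup.subset_closure (.inl rfl))
  have hb : b • A = A := le (Subgroup.subset_closure (.inr rfl))
  have cm : ∀ x, x • A = A → Commute h x := fun x k => by
    have : (⟨h, f⟩ * ⟨x, k⟩ : stabilizer G A) = ⟨x, k⟩ * ⟨h, f⟩ :=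
      i.injective (by rw [map_mul, map_mul, mul_comm])
    exact congrArg Subtype.val this
  have pw : ∀ i : ℤ, h ^ i = 1 → i = 0 := fun i e => by_contra fun n =>
    S.tf h h1 (isOfFinOrder_iff_zpow_eq_one.2 ⟨i, n, e⟩)
  have dep : ∀ x, x • A = A → (¬ ∃ p, Wr T h A p) → ∃ m n : ℤ, n ≠ 0 ∧ x ^ n = h ^ m :=
    fun x k no => by_contra fun d => no ⟨x, hA, ⟨cm x k, fun m n e => by
      have n0 : n = 0 := by_contra fun n0 =>
        d ⟨-m, n, n0, by rw [zpow_neg, eq_inv_of_mul_eq_one_right e]⟩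
      exact ⟨pw m (by simpa only [n0, zpow_zero, mul_one] using e), n0⟩⟩, f, k⟩
  by_contra no
  obtain ⟨m, n, n0, e⟩ := dep a ha no
  obtain ⟨m', n', n0', e'⟩ := dep b hb no
  have k := z.2 (n * m') (-(n' * m)) (by
    rw [zpow_neg, zpow_mul, zpow_mul, e, e', ← zpow_mul, ← zpow_mul, mul_comm m', mul_inv_cancel])
  rw [(mul_eq_zero.1 k.1).resolve_left n0, zpow_zero] at e'
  exact n0' (z.2 0 n' (by rw [zpow_zero, one_mul, e'])).2

end Sw

/-- at an ordinary vertex without a crossed lattice no element fixes two edges -/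
theorem s2_hd (S : Std T) {V : Type} [MulAction G V] {Γ : SimpleGraph V} {hd tl : S.cf.U → V}
    (J : Jw0 S Γ hd tl) (e : S.cf.U) (n : ¬ S1 T (hd e)) : ¬ S2 G Γ (hd e) := by
  rintro ⟨h, w, w', h1, hv, k, k', ne, hw, hw'⟩
  have P := J.sy.poc
  have fx : ∀ (g : G) (f : S.cf.U), g • st T f.1 = st T f.1 ↔ g • f = f := fun g f => by
    rw [Sw.st_fix S f.2.1, Subtype.ext_iff]
    rfl
  obtain ⟨f, a, rfl⟩ := (J.tr.nb P e w).1 k
  obtain ⟨f', a', rfl⟩ := (J.tr.nb P e w').1 k'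
  have fv : ∀ (g : G) (f : S.cf.U), hd f = hd e → g • st T f.1 = st T f.1 → g • hd e = hd e :=
    fun g f a k => a ▸ ((J.tr.stab g f).2 ((fx g f).1 k)).1
  have vf : ∀ (g : G) (f : S.cf.U), hd f = hd e → g • hd e = hd e → g • tl f = tl f →
      g • st T f.1 = st T f.1 := fun g f a k l => (fx g f).2 ((J.tr.stab g f).1 ⟨a ▸ k, l⟩)
  have lt : ∀ f f' : S.cf.U, hd f = hd e → hd f' = hd e → st T f.1 ≠ st T f'.1 →
      st T f.1 ⊂ f'.1 := fun f f' a a' n =>
    (((J.tr.hdq f f').1 (a.trans a'.symm)).resolve_left fun q => n (q ▸ rfl)).1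
  have nf : st T f'.1 ≠ st T f.1 := fun q =>
    ne (congrArg tl (Subtype.ext (S.cf.inj f'.2.1 f.2.1 q)).symm)
  obtain ⟨p, r⟩ := Sw.ray S (f.2.1.star S) h1 (vf h f a hv hw)
  obtain ⟨q, s⟩ := Sw.ray S (f'.2.1.star S) h1 (vf h f' a' hv hw')
  obtain ⟨α, β, f1, f2, z, l⟩ := Sw.gap S r s
    ⟨nf, fun q => (lt f' f a' a nf).ne (q.trans (f.2.1.st_st S))⟩
  have gv : (α * β) • hd e = hd e := by rw [mul_smul, fv β f' a' f2, fv α f a f1]
  rcases J.cusp _ _ _ z hv gv with ⟨u, b, c, d⟩ | ⟨B, hB⟩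
  · obtain ⟨x, y, rfl⟩ := (J.tr.nb P e u).1 b
    obtain ⟨a1, a2, m⟩ := l _ (x.2.1.star S) (vf h x y hv c) (vf _ x y gv d)
    exact m ⟨(lt x f y a a1.1).1.trans (subset_compl_comm.1 (f.2.1.st_sub S)),
      (lt x f' y a' a2.1).1.trans (subset_compl_comm.1 (f'.2.1.st_sub S))⟩
  · exact n ⟨_, _, B, z, hv, gv, hB⟩

end Pool.Agent.Work.MP_3d425c_gt.Fr
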