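import Pool.Agent.Work.MP_3d425c_gt.Cw.Tree
import Pool.Agent.Work.MP_3d425c_gt.Sv.Defs

/-! A vertex whose group contains the lattice of a crossed wall has a fibre. -/

namespace Pool.Agent.Work.MP_3d425c_gt.Fr
open Set MulAction Pool.Agent.Work.MP_3d425c_gt.Md Pool.Agent.Work.MP_3d425c_gt.Bg
  Pool.Agent.Work.MP_3d425c_gt.Bq Pool.Agent.Work.MP_3d425c_gt.Jw Pool.Agent.Work.MP_3d425c_gt.Nh
  Pool.Agent.Work.MP_3d425c_gt.Cw
open scoped Pointwise

variable {G X0 X1 X2 X3 : Type} [Group G] [MulAction G X0] [MulAction G X1] [MulAction G X2]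
  [MulAction G X3] {T : Tri G X0 X1 X2 X3}

/-- a wall on one side of `A` and nested with `B` lies on one side of `B` if `A` crosses `B` -/
theorem spread (C : Cf T) {D A B : Set X0} (hD : Can T D) (hA : Can T A) (hB : Can T B)
    (d : Nst T D B) (n : ¬ Nst T A B) (k : D ⊆ A ∨ D ⊆ st T A) : D ⊆ B ∨ D ⊆ st T B := by
  have key : ∀ Y, Can T Y → Y ⊆ D → Nst T A Y := fun Y hY s => by
    rcases k with k | k
    · exact .inr (.inr (.inr (s.trans k)))
    · exact .inr (.inl (C.inv A hA ▸ C.anti _ _ hY (C.mst A hA) (s.trans k)))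
  rcases d with d | d | d | d
  · exact .inl d
  · exact .inr d
  · have := key _ (C.mst B hB) (C.inv D hD ▸ C.anti _ _ (C.mst D hD) hB d)
    have := C.nst_st (C.mst B hB) hA (C.nst_symm hA (C.mst B hB) this)
    rw [C.inv B hB] at this
    exact absurd (C.nst_symm hB hA this) n
  · exact absurd (key B hB d) n

/-- every uncrossed wall on one side of `P` lies in an uncrossed wall on one side of `P` that is
fixed by `h` -/
def Frt (T : Tri G X0 X1 X2 X3) (P : Set X0) (h : G) : Prop :=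
  ∀ F, Unc T F → (F ⊆ P ∨ F ⊆ st T P) →
    ∃ D, Unc T D ∧ h • D = D ∧ F ⊆ D ∧ (D ⊆ P ∨ D ⊆ st T P)

theorem ex_nx' {E : Type} [MulAction G E] {lt : E → E → Prop} {s : E → E} (P : Poc G lt s)
    {x e : E} (h : lt x e) : ∃ y, Nx lt x y ∧ (y = e ∨ lt y e) := by
  obtain ⟨n, hn⟩ : ∃ n, {z | lt x z ∧ lt z e}.ncard = n := ⟨_, rfl⟩
  induction n using Nat.strong_induction_on generalizing e with
  | _ n ih =>
    by_cases k : Nx lt x e
    · exact ⟨e, k, .inl rfl⟩
    obtain ⟨z, a, b⟩ : ∃ z, lt x z ∧ lt z e := by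
      by_contra q
      exact k ⟨h, fun z a b => q ⟨z, a, b⟩⟩
    obtain ⟨y, p, q⟩ := ih _ (hn ▸ ncard_lt_ncard (ssubset_iff_subset_ne.2
      ⟨fun y (k : lt x y ∧ lt y z) => ⟨k.1, P.tr k.2 b⟩, fun q => P.irr z
        (show z ∈ {y | lt x y ∧ lt y z} from q ▸ ⟨a, b⟩).2⟩) (P.fin x e)) a rfl
    exact ⟨y, p, .inr (q.elim (fun q => q ▸ b) fun q => P.tr q b)⟩

theorem z2_sq {a b : G} (z : Z2 a b) : Z2 (a * a) (b * b) := by
  refine ⟨(z.1.mul_left z.1).mul_right (z.1.mul_left z.1), fun m n e => ?_⟩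
  rw [← pow_two, ← pow_two, ← zpow_natCast, ← zpow_natCast, ← zpow_mul, ← zpow_mul] at e
  have := z.2 _ _ e
  push_cast at this
  omega

section
variable {S : Std T} {V : Type} [MulAction G V] {Γ : SimpleGraph V} {hd tl : S.cf.U → V}
  (J : Jw0 S Γ hd tl)
include J

/-- an element that fixes all walls at a vertex gives a fibre -/
theorem sei_of (e : S.cf.U) {h : G} (h1 : h ≠ 1) (hf : ∀ f, hd f = hd e → h • f.1 = f.1) :
    Sv.Sei G Γ (hd e) := by
  have P := J.sy.poc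
  let K : Subgroup G :=
    { carrier := {g | ∀ f, hd f = hd e → g • f = f}
      one_mem' := fun f _ => one_smul G f
      mul_mem' := fun {x y} a b f k => by rw [mul_smul, b f k, a f k]
      inv_mem' := fun {x} a f k => by rw [inv_smul_eq_iff, a f k] }
  obtain ⟨u, u1, u2⟩ := J.red _ _ (J.tr.adj e)
  have n : e.1 ≠ (u • e).1 := fun q => u2 (by rw [← J.tr.tle, ← Subtype.ext q])
  have hu : hd (u • e) = hd e := by rw [J.tr.hde, u1]
  have n' : e.1 ≠ st T (u • e).1 := fun q =>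
    J.tr.hd_ne P (u • e) (hu.trans (congrArg hd (Subtype.ext q)))
  have c := e.2.1.rk S (u • e).2.1 n n'
  have le : K ≤ stabilizer G e.1 ⊓ stabilizer G (u • e).1 := fun g k =>
    ⟨congrArg Subtype.val (k e rfl), congrArg Subtype.val (k _ hu)⟩
  have cK : IsCyclic K := Subgroup.isCyclic_of_le le
  obtain ⟨k, hk⟩ := (Subgroup.isCyclic_iff_exists_zpowers_eq_top K).1 cK
  have mk : k ∈ K := hk ▸ Subgroup.mem_zpowers k
  refine ⟨k, fun q => h1 ?_, ((J.tr.stab k e).2 (mk e rfl)).1, fun w a => ?_, fun g gv => ?_⟩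
  · have : h ∈ Subgroup.zpowers k := hk ▸ fun f q => Subtype.ext (hf f q)
    rwa [q, Subgroup.zpowers_one_eq_bot, Subgroup.mem_bot] at this
  · obtain ⟨f, p, rfl⟩ := (J.tr.nb P e w).1 a
    exact ((J.tr.stab k f).2 (mk f p)).2
  · rw [hk]
    intro f p
    rw [mul_smul, mul_smul, mk _ (by rw [J.tr.hde, p, inv_smul_eq_iff, gv]), smul_inv_smul]

/-- a wall at the vertex does not lie on one side of the crossed wall -/
theorem not_sub {a b : G} {P : Set X0} (z : Z2 a b) (hP : Can T P) (nu : ¬ Unc T P)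
    (aP : a • P = P) (bP : b • P = P) {f : S.cf.U} (av : a • hd f = hd f) (bv : b • hd f = hd f) :
    ¬ (f.1 ⊆ P ∨ f.1 ⊆ st T P) := fun k => by
  have C := S.cf
  have hf := f.2.1
  obtain ⟨Y, hY, s, inv⟩ : ∃ Y, Can T Y ∧ Y ⊆ st T f.1 ∧ ∀ g : G, g • P = P → g • Y = Y := by
    rcases k with k | k
    · exact ⟨_, C.mst P hP, C.anti _ _ hf hP k, fun g q => by rw [← C.ast g P hP, q]⟩
    · exact ⟨P, hP, C.inv P hP ▸ C.anti _ _ hf (C.mst P hP) k, fun _ q => q⟩
  have fx : ∀ g : G, g • P = P → g • hd f = hd f → g • f.1 = f.1 := fun g p q => by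
    rcases (J.tr.stabv g f).1 q with r | r
    · exact congrArg Subtype.val r
    · obtain ⟨y, hy⟩ := C.ne hY
      have r1 : st T f.1 ⊆ g • f.1 := r.1.1
      have r2 : Y ⊆ st T (g • f.1) := by
        rw [C.ast g _ hf, ← inv g p]
        exact smul_set_mono s
      exact absurd (r1 (s hy)) (C.dis _ (C.smul g _ hf) (r2 hy))
  rcases hf.comm S hP z (fx a aP av) (fx b bP bv) aP bP with q | q
  · exact nu (q ▸ f.2)
  · exact nu (q ▸ C.unc_st f.2)

/-- the lattice of a crossed wall does not fix a midpoint -/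
theorem not_mid {a b : G} {P : Set X0} (z : Z2 a b) (hP : Can T P) (nu : ¬ Unc T P)
    (aP : a • P = P) (bP : b • P = P) {e : S.cf.U} (i : Iv G S.cf.ust e)
    (av : a • tl e = tl e) (bv : b • tl e = tl e) : False := by
  have fx : ∀ g : G, g • tl e = tl e → (g * g) • e.1 = e.1 := fun g q => by
    refine congrArg Subtype.val (?_ : (g * g) • e = e)
    rcases (J.tr.stabm i g).1 q with r | r
    · rw [mul_smul, r, r]
    · rw [mul_smul, r, ← J.sy.poc.ast, r, J.sy.poc.inv]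
  rcases e.2.1.comm S hP (z2_sq z) (fx a av) (fx b bv) (by rw [mul_smul, aP, aP])
    (by rw [mul_smul, bP, bP]) with q | q
  · exact nu (q ▸ e.2)
  · exact nu (q ▸ S.cf.unc_st e.2)

/-- the fibre at a vertex that carries a crossed wall -/
theorem sei_of_frt {v : V} {a b h : G} {P : Set X0} (z : Z2 a b) (av : a • v = v) (bv : b • v = v)
    (hP : Can T P) (nu : ¬ Unc T P) (aP : a • P = P) (bP : b • P = P) (h1 : h ≠ 1)
    (H : Frt T P h) : Sv.Sei G Γ v := by
  have C := S.cf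
  have Q := J.sy.poc
  obtain ⟨e, rfl | ⟨i, rfl⟩⟩ := J.tr.all v
  swap
  · exact (not_mid J z hP nu aP bP i av bv).elim
  refine sei_of J e h1 fun f p => ?_
  have hf := f.2.1
  have ns : ∀ y : S.cf.U, hd y = hd e → ¬ (y.1 ⊆ P ∨ y.1 ⊆ st T P) := fun y q =>
    not_sub J z hP nu aP bP (q ▸ av) (q ▸ bv)
  have far : st T f.1 ⊆ P ∨ st T f.1 ⊆ st T P := by
    rcases f.2.2 P hP with k | k | k | k
    · exact (ns f p (.inl k)).elim
    · exact (ns f p (.inr k)).elim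
    · exact .inl k
    · exact .inr (C.anti _ _ hP hf k)
  obtain ⟨D, hD, hh, s, k⟩ := H _ (C.unc_st f.2) far
  rcases s.eq_or_ssubset with q | q
  · exact C.inj (C.smul h _ hf) hf (by rw [C.ast h _ hf, q, hh])
  · obtain ⟨y, n, r⟩ := ex_nx' Q (x := S.cf.ust f) (e := ⟨D, hD⟩) q
    have r' : y.1 ⊆ D := r.elim (fun r => (congrArg Subtype.val r).le) fun r => r.1
    exact (ns y (((J.tr.hdq f y).2 (.inr n)).symm.trans p)
      (k.imp r'.trans r'.trans)).elim

/-- the first exceptional case -/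
theorem s1_sei (H : ∀ P, Can T P → ¬ Unc T P → ∃ h : G, h ≠ 1 ∧ Frt T P h) {v : V}
    (k : S1 T v) : Sv.Sei G Γ v :=
  let ⟨_, _, P, z, av, bv, hP, nu, aP, bP⟩ := k
  let ⟨_, h1, f⟩ := H P hP nu
  sei_of_frt J z av bv hP nu aP bP h1 f

end

/-- from a chain connected family with uncrossed frontier walls -/
theorem frt_of (C : Cf T) {P : Set X0} {h : G} {L : Set (Set X0)} (hP : Can T P)
    (conn : ∀ A ∈ L, Relation.ReflTransGen
      (fun A B => Can T A ∧ Can T B ∧ (¬ Nst T A B ∨ B = st T A)) P A)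
    (fr : ∀ F, Can T F → (∀ A ∈ L, F ⊆ A ∨ F ⊆ st T A) →
      ∃ B, Unc T B ∧ h • B = B ∧ F ⊆ st T B ∧ ∃ A ∈ L, A ⊆ B) : Frt T P h := by
  have step : ∀ D, Unc T D → ∀ A B, (Can T A ∧ Can T B ∧ (¬ Nst T A B ∨ B = st T A)) →
      ((D ⊆ A ∨ D ⊆ st T A) ↔ (D ⊆ B ∨ D ⊆ st T B)) := by
    rintro D hD A B ⟨hA, hB, n | rfl⟩
    · exact ⟨spread C hD.1 hA hB (hD.2 B hB) n,
        spread C hD.1 hB hA (hD.2 A hA) fun k => n (C.nst_symm hB hA k)⟩
    · rw [C.inv A hA, or_comm]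
  have all : ∀ D, Unc T D → ∀ A ∈ L, Can T A ∧
      ((D ⊆ P ∨ D ⊆ st T P) ↔ (D ⊆ A ∨ D ⊆ st T A)) := fun D hD A a => by
    have := conn A a
    clear a
    induction this with
    | refl => exact ⟨hP, Iff.rfl⟩
    | tail _ k ih => exact ⟨k.2.1, ih.2.trans (step D hD _ _ k)⟩
  intro F hF k
  obtain ⟨B, hB, hh, s, A, a, t⟩ := fr F hF.1 fun A a => (all F hF A a).2.1 k
  have u := C.unc_st hB
  exact ⟨_, u, by rw [← C.ast h B hB.1, hh], s,
    (all _ u A a).2.2 (.inr (C.anti _ _ (all _ u A a).1 hB.1 t))⟩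

end Pool.Agent.Work.MP_3d425c_gt.Fr
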