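import Pool.Agent.Work.MP_3d425c_gt.Cw.Can
import Pool.Agent.Work.MP_3d425c_gt.Cw.Ori
import Pool.Agent.Work.MP_3d425c_gt.Jw.Root

/-! The union of a periodic chain of crossing walls is a wall. -/

namespace Pool.Agent.Work.MP_3d425c_gt.Cw
open Set Relation MulAction Filter Pool.Agent.Work.MP_3d425c_gt.Md Pool.Agent.Work.MP_3d425c_gt.Bg
  Pool.Agent.Work.MP_3d425c_gt.Jw Pool.Agent.Work.MP_3d425c_gt.Bq
open scoped Pointwise

section
variable {G X : Type} [Group G] [MulAction G X] {a b : G}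

theorem fw_chain {Y : Type} {r : Y → Y → Prop} {L : Set Y} {A B : Y} (a : A ∈ L)
    (k : ReflTransGen (fun U V => V ∈ L ∧ r U V) A B) : ∃ P : Set Y, P.Finite ∧ P ⊆ L ∧ A ∈ P ∧
      B ∈ P ∧ ∀ C ∈ P, ReflTransGen (fun U V => U ∈ P ∧ V ∈ P ∧ r U V) A C := by
  induction k with
  | refl =>
    refine ⟨{A}, finite_singleton _, singleton_subset_iff.2 a, rfl, rfl, ?_⟩
    rintro _ rfl
    exact .refl
  | @tail U V _ q ih =>
    obtain ⟨P, f, s, p, u, c⟩ := ih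
    have m : ∀ C ∈ P, ReflTransGen (fun U W => U ∈ insert V P ∧ W ∈ insert V P ∧ r U W) A C :=
      fun C hC => ReflTransGen.mono (fun _ _ e => ⟨.inr e.1, .inr e.2.1, e.2.2⟩) _ _ (c C hC)
    refine ⟨insert V P, f.insert _, insert_subset q.1 s, .inr p, .inl rfl, ?_⟩
    rintro C (rfl | hC)
    · exact (m U u).tail ⟨.inr u, .inl rfl, q.2⟩
    · exact m C hC

theorem fw_two {E S : Set X} (hE : ∀ x, a • x ∈ E ↔ x ∈ E)
    (h : ∀ e, ∀ᶠ n : ℕ in atTop, b ^ n • e ∉ E) (h' : ∀ e, ∀ᶠ n : ℕ in atTop, b⁻¹ ^ n • e ∉ E)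
    (hS : Sm2 a b S) : Sm a (E ∩ S) := by
  obtain ⟨K, hK, k⟩ := hS
  have p : Hf a b {x | ∃ y ∈ K, ∃ (m : ℤ) (n : ℕ), x = (a ^ m * b ^ n) • y} := ⟨K, hK, fun _ q => q⟩
  have q : Hf a b⁻¹ {x | ∃ y ∈ K, ∃ (m : ℤ) (n : ℕ), x = (a ^ m * b⁻¹ ^ n) • y} :=
    ⟨K, hK, fun _ q => q⟩
  refine smP_zpowers.1 (((smP_zpowers.2 (sm_of_av hE h p)).union
    (smP_zpowers.2 (sm_of_av hE h' q))).mono fun x hx => ?_)
  obtain ⟨y, hy, m, n, e⟩ := k x hx.2
  obtain ⟨j, rfl | rfl⟩ := Int.eq_nat_or_neg n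
  · exact .inl ⟨hx.1, y, hy, m, j, by rw [e, zpow_natCast]⟩
  · exact .inr ⟨hx.1, y, hy, m, j, by rw [e, zpow_neg, zpow_natCast, inv_pow]⟩

theorem fw_dep (c : Commute a b) {m n : ℤ} (e : a ^ m * b ^ n = 1) (n0 : n ≠ 0) {S : Set X}
    (hS : Sm2 a b S) : Sm a S := by
  obtain ⟨K, hK, k⟩ := hS
  refine ⟨⋃ r ∈ Finset.Ico (0 : ℤ) |n|, (fun y => b ^ r • y) '' K,
    (Finset.finite_toSet _).biUnion fun _ _ => hK.image _, fun x hx => ?_⟩
  obtain ⟨y, hy, i, j, rfl⟩ := k x hx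
  have e' : b ^ n = a ^ (-m) := by rw [zpow_neg]; exact eq_inv_of_mul_eq_one_right e
  refine ⟨b ^ (j % n) • y, mem_biUnion (Finset.mem_coe.2 (Finset.mem_Ico.2
    ⟨Int.emod_nonneg _ n0, Int.emod_lt_abs _ n0⟩)) ⟨y, hy, rfl⟩, i + -m * (j / n), ?_⟩
  rw [← mul_smul, zpow_add, zpow_mul, ← e', ← zpow_mul, mul_assoc, ← zpow_add,
    Int.mul_ediv_add_emod]

theorem fw_zp {A : Set X} (h : a • A = A) (x : X) : a • x ∈ A ↔ x ∈ A := by
  conv_lhs => rw [← h]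
  exact smul_mem_smul_set_iff

end

variable {G X0 X1 X2 X3 : Type} [Group G] [MulAction G X0] [MulAction G X1] [MulAction G X2]
  [MulAction G X3] {T : Tri G X0 X1 X2 X3} {A B C F : Set X0} {a b h s : G}

theorem fw_big (hM : Mfd T) (k : Can T A) (z : Z2 a b) : ¬ SmP (pp a b) A := fun n => by
  obtain ⟨c, d, z', w, l, -, -⟩ := k.idx hM
  exact w.big ((sm2_iff z').2 (cn_fi n (cn_rk z z'
    (cn_orb T.free n l.mn.inv (cn_ne' w.big)))))

theorem fw_ne (k : Can T A) : A.Nonempty := let ⟨_, _, _, w, _⟩ := k; cn_ne' w.big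

theorem fw_pow (S : Std T) (h1 : h ≠ 1) {m : ℤ} (e : h ^ m = 1) : m = 0 := by
  by_contra n
  exact S.tf h h1 (isOfFinOrder_iff_zpow_eq_one.2 ⟨m, n, e⟩)

theorem fw_ray (S : Std T) (k : Can T A) (h1 : h ≠ 1) (fx : h • A = A) :
    ∃ t, Z2 h t ∧ t • A = A := by
  obtain ⟨a, b, z, -, -, le, -⟩ := k.idx S.mfd
  obtain ⟨i⟩ := k.z2 S
  have cm : ∀ t ∈ stabilizer G A, Commute h t := fun t ht => by
    have : (⟨h, fx⟩ : stabilizer G A) * ⟨t, ht⟩ = ⟨t, ht⟩ * ⟨h, fx⟩ :=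
      i.injective (by rw [map_mul, map_mul, mul_comm])
    exact congrArg Subtype.val this
  have ha := le (cn_ma a b)
  have hb := le (cn_mb a b)
  by_contra n
  have dp : ∀ t ∈ stabilizer G A, ∃ m n : ℤ, n ≠ 0 ∧ t ^ n = h ^ m := fun t ht => by
    by_contra q
    refine n ⟨t, ⟨cm t ht, fun i j e => ?_⟩, ht⟩
    have j0 : j = 0 := by
      by_contra j0
      exact q ⟨-i, j, j0, by rw [zpow_neg]; exact eq_inv_of_mul_eq_one_right e⟩
    rw [j0, zpow_zero, mul_one] at e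
    exact ⟨fw_pow S h1 e, j0⟩
  obtain ⟨i, m, m0, e⟩ := dp a ha
  obtain ⟨j, l, l0, e'⟩ := dp b hb
  have q := z.2 (m * j) (l * -i) (by
    rw [zpow_mul, zpow_mul, e, e', ← zpow_mul, ← zpow_mul, ← zpow_add,
      show i * j + j * -i = 0 by ring, zpow_zero])
  have i0 : i = 0 := by
    rcases mul_eq_zero.1 q.2 with k | k <;> omega
  exact m0 (z.2 m 0 (by rw [e, i0, zpow_zero, zpow_zero, mul_one])).1

theorem fw_symm (S : Std T) (k : Can T A) (l : Can T B) (n : Nst T A B) : Nst T B A := by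
  rcases n with n | n | n | n
  · exact .inr (.inr (.inr n))
  · exact .inr (.inl (by simpa only [l.st_st S] using k.st_anti S (l.star S) n))
  · exact .inr (.inr (.inl (by simpa only [k.st_st S] using (k.star S).st_anti S l n)))
  · exact .inl n

theorem fw_smul (S : Std T) (k : Can T A) (l : Can T B) (g : G) (n : Nst T (g • A) (g • B)) :
    Nst T A B := by
  unfold Nst at n ⊢
  rw [k.st_smul S, l.st_smul S] at n
  simpa only [smul_set_subset_smul_set_iff] using n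

/-- every end of a member of a periodic chain lies in another member -/
def Cvr (T : Tri G X0 X1 X2 X3) : Prop :=
  ∀ (h s : G) (P : Set (Set X0)), h ≠ 1 → Commute h s → (∀ A ∈ P, Can T A) →
    (∀ A ∈ P, h • A = A) → (∀ A, s • A ∈ P ↔ A ∈ P) → (∀ A ∈ P, st T A ∉ P) →
    (∀ A ∈ P, s • A ≠ A) →
    (∀ A ∈ P, ∀ B ∈ P, ReflTransGen (fun U V => U ∈ P ∧ V ∈ P ∧ ¬ Nst T U V) A B) →
    ∀ A ∈ P, ∀ t, Z2 h t → t • A = A → ∃ J ∈ P, ∀ x, ∀ᶠ n : ℕ in atTop, t ^ n • x ∈ J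

/-- the sides that miss `F`, with a translation `s` -/
structure Fd (T : Tri G X0 X1 X2 X3) (h s : G) (L : Set (Set X0)) (F : Set X0) : Prop where
  ne : h ≠ 1
  cm : Commute h s
  can : ∀ A ∈ L, Can T A
  fx : ∀ A ∈ L, h • A = A
  inv : ∀ A, s • A ∈ L ↔ A ∈ L
  cF : Can T F
  sub : ∀ A ∈ L, F ⊆ st T A
  mv : ∀ A ∈ L, s • A ≠ A
  con : ∀ A ∈ L, ∀ B ∈ L, ReflTransGen (fun U V => V ∈ L ∧ ¬ Nst T U V) A B
  ex : L.Nonempty

namespace Fd
variable {L : Set (Set X0)}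

theorem zp (d : Fd T h s L F) (n : ℤ) (A : Set X0) : s ^ n • A ∈ L ↔ A ∈ L := inv_zp d.inv n A

theorem out (S : Std T) (d : Fd T h s L F) (a : A ∈ L) : F ⊆ Aᶜ :=
  (d.sub A a).trans ((d.can A a).st_sub S)

/-- a periodic chain -/
theorem chain (S : Std T) (d : Fd T h s L F) : ∃ P Q : Set (Set X0), Q.Finite ∧ Q ⊆ P ∧
    P ⊆ L ∧ P.Nonempty ∧ (∀ A ∈ P, ∃ n : ℤ, ∃ B ∈ Q, A = s ^ n • B) ∧ (∀ A, s • A ∈ P ↔ A ∈ P) ∧
    ∀ A ∈ P, ∀ B ∈ P, ReflTransGen (fun U V => U ∈ P ∧ V ∈ P ∧ ¬ Nst T U V) A B := by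
  obtain ⟨A₀, a₀⟩ := d.ex
  obtain ⟨Q, f, sb, p, q, c⟩ := fw_chain a₀ (d.con A₀ a₀ _ ((d.inv A₀).2 a₀))
  let P : Set (Set X0) := {A | ∃ n : ℤ, ∃ B ∈ Q, A = s ^ n • B}
  have qp : Q ⊆ P := fun B b => ⟨0, B, b, by rw [zpow_zero, one_smul]⟩
  have pl : P ⊆ L := by
    rintro _ ⟨n, B, b, rfl⟩
    exact (d.zp n B).2 (sb b)
  have tp : ∀ (m : ℤ), ∀ A ∈ P, s ^ m • A ∈ P := by
    rintro m _ ⟨n, B, b, rfl⟩
    exact ⟨m + n, B, b, by rw [zpow_add, mul_smul]⟩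
  let r : Set X0 → Set X0 → Prop := fun U V => U ∈ P ∧ V ∈ P ∧ ¬ Nst T U V
  have sy : ∀ {A B}, ReflTransGen r A B → ReflTransGen r B A := fun k => by
    induction k with
    | refl => exact .refl
    | tail _ e ih =>
      exact .head ⟨e.2.1, e.1, fun n => e.2.2
        (fw_symm S (d.can _ (pl e.2.1)) (d.can _ (pl e.1)) n)⟩ ih
  have tr : ∀ (m : ℤ) {A B}, ReflTransGen r A B → ReflTransGen r (s ^ m • A) (s ^ m • B) :=
    fun m A B k => by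
      induction k with
      | refl => exact .refl
      | tail _ e ih =>
        exact ih.tail ⟨tp m _ e.1, tp m _ e.2.1, fun n => e.2.2
          (fw_smul S (d.can _ (pl e.1)) (d.can _ (pl e.2.1)) _ n)⟩
  have c' : ∀ C ∈ Q, ReflTransGen r A₀ C := fun C hC =>
    ReflTransGen.mono (fun _ _ e => ⟨qp e.1, qp e.2.1, e.2.2⟩) _ _ (c C hC)
  have s1 : ∀ n : ℤ, ReflTransGen r (s ^ n • A₀) (s ^ (n + 1) • A₀) := fun n => by
    rw [zpow_add_one, mul_smul]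
    exact tr n (c' _ q)
  have sn : ∀ n : ℤ, ReflTransGen r A₀ (s ^ n • A₀) := fun n => by
    induction n using Int.induction_on with
    | zero => rw [zpow_zero, one_smul]
    | succ i ih => exact ih.trans (s1 i)
    | pred i ih =>
      have := sy (s1 (-i - 1))
      rw [sub_add_cancel] at this
      exact ih.trans this
  have al : ∀ A ∈ P, ReflTransGen r A₀ A := by
    rintro _ ⟨n, B, b, rfl⟩
    exact (sn n).trans (tr n (c' B b))
  refine ⟨P, Q, f, qp, pl, ⟨A₀, qp p⟩, fun _ a => a, fun A => ⟨fun a => ?_, fun a => ?_⟩,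
    fun A a B b => (sy (al A a)).trans (al B b)⟩
  · simpa only [zpow_neg, zpow_one, inv_smul_smul] using tp (-1) _ a
  · simpa only [zpow_one] using tp 1 _ a

/-- the frontier wall -/
theorem wall (S : Std T) (cv : Cvr T) (xo : ∀ (A B : Set X0) (a b : G) (x : X0), Can T A →
    Can T B → Z2 a b → a • A = A → b • A = A →
    ((∀ q ∈ pp a b, q • x ∈ B) ∨ ∀ q ∈ pp a b, q • x ∉ B) → Nst T A B)
    (d : Fd T h s L F) : ∃ B, Can T B ∧ Z2 h s ∧ h • B = B ∧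
    s • B = B ∧ F ⊆ st T B ∧ (∃ A ∈ L, A ⊆ B) ∧ (∀ A ∈ L, Nst T B A) ∧
    ∀ C, Can T C → ¬ Nst T B C → ∃ A ∈ L, ¬ Nst T C A := by
  have hM := S.mfd
  obtain ⟨P, Q, f, qp, pl, ⟨A₀, a₀⟩, pq, ip, cn⟩ := d.chain S
  obtain ⟨x₀, hx₀⟩ := fw_ne d.cF
  have cP : ∀ A ∈ P, Can T A := fun A a => d.can A (pl a)
  have cov := cv h s P d.ne d.cm cP (fun A a => d.fx A (pl a)) ip
    (fun A a k => d.out S (pl a) hx₀ (by
      simpa only [(cP A a).st_st S] using d.sub _ (pl k) hx₀))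
    (fun A a => d.mv A (pl a)) cn
  let Y : Set X0 := ⋃₀ P
  have Yh : ∀ x, h • x ∈ Y ↔ x ∈ Y := fun x =>
    ⟨fun ⟨A, a, k⟩ => ⟨A, a, (fw_zp (d.fx A (pl a)) x).1 k⟩,
      fun ⟨A, a, k⟩ => ⟨A, a, (fw_zp (d.fx A (pl a)) x).2 k⟩⟩
  have Ys : ∀ x, s • x ∈ Y ↔ x ∈ Y := fun x =>
    ⟨fun ⟨A, a, k⟩ => ⟨s⁻¹ • A, (ip _).1 (by rwa [smul_inv_smul]), mem_inv_smul_set_iff.2 k⟩,
      fun ⟨A, a, k⟩ => ⟨s • A, (ip A).2 a, smul_mem_smul_set k⟩⟩
  have FY : F ⊆ Yᶜ := fun x hx ⟨A, a, k⟩ => d.out S (pl a) hx k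
  have AY : ∀ A ∈ P, A ⊆ Y := fun A a => subset_sUnion_of_mem a
  have c1 : ∀ A ∈ P, Sm h (cut T Y ∩ cut T A) := fun A a => by
    obtain ⟨t, z, ft⟩ := fw_ray S (cP A a) d.ne (d.fx A (pl a))
    have av : ∀ t, Z2 h t → t • A = A → ∀ e, ∀ᶠ n : ℕ in atTop, t ^ n • e ∉ cut T Y :=
      fun t z ft e => by
        obtain ⟨J, j, k⟩ := cov A a t z ft
        exact ((k (T.d1 e 0)).and (k (T.d1 e 1))).mono fun n q c => c (by
          rw [T.e1, T.e1]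
          exact iff_of_true (AY J j q.1) (AY J j q.2))
    refine fw_two (cut_inv Yh) (av t z ft) (av t⁻¹ ⟨z.1.inv_right, fun m n e => ?_⟩ ?_)
      (cn_fix hM (cP A a) z (d.fx A (pl a)) ft).1.fin
    · have := z.2 m (-n) (by rwa [zpow_neg, ← inv_zpow])
      omega
    · rw [inv_smul_eq_iff, ft]
  have c2 : Sm2 h s (cut T Y) := by
    choose! K hK k using c1
    refine ⟨⋃ A ∈ Q, K A, f.biUnion fun A a => hK A (qp a), fun e he => ?_⟩
    obtain ⟨A, a, m⟩ : ∃ A ∈ P, e ∈ cut T A := by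
      by_cases c : T.d1 e 0 ∈ Y
      · obtain ⟨A, a, m⟩ := id c
        exact ⟨A, a, fun q => he (iff_of_true c (AY A a (q.1 m)))⟩
      · have c' : T.d1 e 1 ∈ Y := by
          by_contra c'
          exact he (iff_of_false c c')
        obtain ⟨A, a, m⟩ := c'
        exact ⟨A, a, fun q => c (AY A a (q.2 m))⟩
    obtain ⟨n, B, b, rfl⟩ := pq A a
    rw [cn_cut, mem_smul_set_iff_inv_smul_mem, ← zpow_neg] at m
    obtain ⟨y, hy, i, q⟩ := k B (qp b) _ ⟨(inv_zp (cut_inv Ys) (-n) e).2 he, m⟩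
    refine ⟨y, mem_biUnion b hy, i, n, ?_⟩
    rw [(d.cm.zpow_zpow i n).eq, mul_smul, ← q, zpow_neg, smul_inv_smul]
  obtain ⟨t₀, z₀, -⟩ := fw_ray S (cP A₀ a₀) d.ne (d.fx A₀ (pl a₀))
  have nb : ∀ {C}, Can T C → ¬ Sm h C := fun k n => fw_big hM k z₀
    ((smP_zpowers.2 n).le ((Subgroup.zpowers_le_of_mem (cn_ma h t₀))))
  have z : Z2 h s := ⟨d.cm, fun m n e => by
    have n0 : n = 0 := by
      by_contra n0
      rcases one_end hM (fun n => fw_pow S d.ne) Yh (fw_dep d.cm e n0 c2) with k | k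
      · exact nb (cP A₀ a₀) (smP_zpowers.1 ((smP_zpowers.2 k).mono (AY A₀ a₀)))
      · exact nb d.cF (smP_zpowers.1 ((smP_zpowers.2 k).mono FY))
    rw [n0, zpow_zero, mul_one] at e
    exact ⟨fw_pow S d.ne e, n0⟩⟩
  have w : IsWall T h s Y := ⟨Yh, Ys, c2,
    fun k => fw_big hM (cP A₀ a₀) z (((sm2_iff z).1 k).mono (AY A₀ a₀)),
    fun k => fw_big hM d.cF z (((sm2_iff z).1 k).mono FY)⟩
  have iY : Inv (pp h s) Y := fun p hp x => by
    obtain ⟨m, n, rfl⟩ := (mem_pp d.cm p).1 hp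
    rw [mul_smul, inv_zp Yh, inv_zp Ys]
  obtain ⟨B, cB, iB, nr⟩ := cn_ex S z w
  have le := cn_le iB
  have nY : Y.Nonempty := (fw_ne (cP A₀ a₀)).mono (AY A₀ a₀)
  have hB : h • B = B := le (cn_ma h s)
  have sB : s • B = B := le (cn_mb h s)
  have AB : ∀ A ∈ P, A ⊆ B := fun A a => (cP A a).sub hM cB
    (((cn_nr hM (A := A) (B := Yᶜ) (by rw [compl_compl]; exact AY A a) ⟨x₀, FY hx₀⟩ iY.compl
      (cP A a).fin (cn_diff nr)).le (inf_le_inf_left _ le)).mono fun x hx =>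
        ⟨hx.1, AY A a hx.1, hx.2⟩)
  refine ⟨B, cB, z, hB, sB, d.cF.sub_st S cB (cn_sub hM d.cF cB
    (((cn_nr hM FY nY iY d.cF.fin (cn_diff (cn_symm nr))).le (inf_le_inf_left _ le)).mono
      fun x hx => ⟨hx.1, hx.2, FY hx.1⟩)), ⟨A₀, pl a₀, AB A₀ a₀⟩, fun A a => ?_, fun C cC n => ?_⟩
  · refine xo B A h s x₀ cB (d.can A a) z hB sB (.inr fun q hq k => ?_)
    obtain ⟨m, n, rfl⟩ := (mem_pp d.cm q).1 hq
    rw [mul_smul, inv_zp (fw_zp (d.fx A a)), ← mem_inv_smul_set_iff, ← zpow_neg] at k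
    exact d.out S ((d.zp (-n) A).2 a) hx₀ k
  · by_contra al
    have ns : ∀ A ∈ P, A ⊆ C ∨ A ⊆ st T C := fun A a => by
      have : Nst T C A := by
        by_contra q
        exact al ⟨A, pl a, q⟩
      rcases fw_symm S cC (cP A a) this with k | k | k | k
      · exact .inl k
      · exact .inr k
      · refine (n (.inr (.inr (.inl ?_)))).elim
        exact ((cP A a).st_anti S cB (AB A a)).trans k
      · exact (n (.inr (.inr (.inr (k.trans (AB A a)))))).elim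
    have key : ∀ D, Can T D → (∀ A ∈ P, A ⊆ D ∨ A ⊆ st T D) → A₀ ⊆ D → B ⊆ D := fun D cD o k => by
      have all : ∀ A ∈ P, A ⊆ D := fun A a => by
        have p := cn A₀ a₀ A a
        induction p with
        | refl => exact k
        | @tail U V _ e ih =>
          refine (o V e.2.1).resolve_right fun q => e.2.2 (.inr (.inl ?_))
          exact (cP U e.1).sub_st S (cP V e.2.1) fun x hx m => cD.st_sub S (q m) (ih e.1 hx)
      have YD : Dᶜ ⊆ Yᶜ := compl_subset_compl.2 (sUnion_subset all)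
      refine cB.sub hM cD ?_
      rw [inf_comm]
      exact ((cn_nr hM YD nY iY (by rw [cn_cut_compl]; exact cD.fin)
        (cn_diff (cn_symm nr))).le (inf_le_inf_left _ le)).mono fun x hx => ⟨hx.2, hx.1, YD hx.2⟩
    rcases ns A₀ a₀ with k | k
    · exact n (.inl (key C cC ns k))
    · refine n (.inr (.inl (key _ (cC.star S) (fun A a => ?_) k)))
      rw [cC.st_st S]
      exact (ns A a).symm

end Fd

end Pool.Agent.Work.MP_3d425c_gt.Cw
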